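import Mathlib

set_option autoImplicit false

namespace Pool.Agent.Results.MP_369bda_lc.StructureLift

open Filter

/-- A game: a possibly infinite directed graph (vertices `V`, edges `E`, with source and target)
whose edges are coloured by `Γ`, in which every vertex has an outgoing edge, with the set `eve` of
the vertices of Eve (the others belong to Adam) and an initial vertex. -/
structure Game (Γ : Type) where
  V : Type
  E : Type
  src : E → V
  tgt : E → V
  col : E → Γ
  eve : Set V
  init : V
  out : ∀ v, ∃ e, src e = v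

/-- A deterministic parity automaton with finite state set. -/
structure DPA (Γ : Type) where
  Q : Type
  fin : Finite Q
  q0 : Q
  step : Q → Γ → Q
  pr : Q → ℕ

/-- The run of a deterministic parity automaton on an infinite word. -/
def DPA.run {Γ : Type} (A : DPA Γ) (w : ℕ → Γ) : ℕ → A.Q
  | 0 => A.q0
  | n + 1 => A.step (A.run w n) (w n)

/-- Acceptance: the largest priority seen infinitely often is even. -/
def DPA.Accepts {Γ : Type} (A : DPA Γ) (w : ℕ → Γ) : Prop :=
  ∃ p, Even p ∧ (∃ᶠ n in atTop, A.pr (A.run w n) = p) ∧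
    ∀ q, p < q → ¬ ∃ᶠ n in atTop, A.pr (A.run w n) = q

/-- `W` is recognised by a finite deterministic parity automaton. -/
def OmegaRegular {Γ : Type} (W : Set (ℕ → Γ)) : Prop :=
  ∃ A : DPA Γ, ∀ w, w ∈ W ↔ A.Accepts w

namespace Game

variable {Γ : Type}

/-- An infinite play from the initial vertex, given by its edges. -/
def IsPlay (G : Game Γ) (e : ℕ → G.E) : Prop :=
  G.src (e 0) = G.init ∧ ∀ n, G.src (e (n + 1)) = G.tgt (e n)

/-- The history before step `n`, with the latest edge first. -/
def hist (G : Game Γ) (e : ℕ → G.E) : ℕ → List G.E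
  | 0 => []
  | n + 1 => e n :: G.hist e n

/-- The current vertex after a history (latest edge first). -/
def cur (G : Game Γ) : List G.E → G.V
  | [] => G.init
  | e :: _ => G.tgt e

/-- Eve has a winning strategy (with no restriction on its memory) for the objective `W`. -/
def EveWins (G : Game Γ) (W : Set (ℕ → Γ)) : Prop :=
  ∃ σ : List G.E → G.E, (∀ h, G.cur h ∈ G.eve → G.src (σ h) = G.cur h) ∧
    ∀ e, G.IsPlay e → (∀ n, G.src (e n) ∈ G.eve → e n = σ (G.hist e n)) →
      (fun n => G.col (e n)) ∈ W

/-- The memory state before step `n` when the colours seen are `w 0, w 1, …`. -/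
def mem {M : Type} (m0 : M) (μ : M → Γ → M) (w : ℕ → Γ) : ℕ → M
  | 0 => m0
  | n + 1 => μ (mem m0 μ w n) (w n)

/-- Eve has a winning chromatic strategy with `k` memory states for the objective `W`. -/
def ChromWins (G : Game Γ) (W : Set (ℕ → Γ)) (k : ℕ) : Prop :=
  ∃ (m0 : Fin k) (μ : Fin k → Γ → Fin k) (c : G.V → Fin k → G.E),
    (∀ v ∈ G.eve, ∀ m, G.src (c v m) = v) ∧
    ∀ e, G.IsPlay e →
      (∀ n, G.src (e n) ∈ G.eve →
        e n = c (G.src (e n)) (mem m0 μ (fun i => G.col (e i)) n)) →
      (fun n => G.col (e n)) ∈ W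

/-- Eve owns every vertex. -/
def OnePlayer (G : Game Γ) : Prop := ∀ v, v ∈ G.eve

/-- The game graph is finite. -/
def IsFinite (G : Game Γ) : Prop := Finite G.V ∧ Finite G.E

end Game

/-- The chromatic memory of `W` over the class `C` of games is `k`. -/
def ChromMem {Γ : Type} (C : Game Γ → Prop) (W : Set (ℕ → Γ)) (k : ℕ) : Prop :=
  IsLeast {k : ℕ | ∀ G : Game Γ, C G → G.EveWins W → G.ChromWins W k} k

/-- The infinite words over `n` letters in which two different letters occur infinitely often. -/
def W (n : ℕ) : Set (ℕ → Fin n) :=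
  {w | ∃ a b, a ≠ b ∧ (∃ᶠ i in atTop, w i = a) ∧ ∃ᶠ i in atTop, w i = b}

/-! ### Strategies that win from every winnable vertex -/

namespace Game

variable {Γ : Type}

/-- The same game with the initial vertex `v`. -/
def startAt (G : Game Γ) (v : G.V) : Game Γ := { G with init := v }

/-- The chromatic strategy given by the structure `(Fin k, m0, μ)` and the choice function `c`
wins from every vertex from which Eve can win. -/
def Optimal (G : Game Γ) (W : Set (ℕ → Γ)) {k : ℕ} (m0 : Fin k) (μ : Fin k → Γ → Fin k)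
    (c : G.V → Fin k → G.E) : Prop :=
  (∀ v ∈ G.eve, ∀ m, G.src (c v m) = v) ∧
    ∀ v, (G.startAt v).EveWins W → ∀ e : ℕ → G.E, (G.startAt v).IsPlay e →
      (∀ n, G.src (e n) ∈ G.eve → e n = c (G.src (e n)) (mem m0 μ (fun i => G.col (e i)) n)) →
      (fun n => G.col (e n)) ∈ W

end Game

/-- In every game of `C` some chromatic strategy with `k` states wins from every vertex from
which Eve can win. -/
def Bound {Γ : Type} (C : Game Γ → Prop) (W : Set (ℕ → Γ)) (k : ℕ) : Prop :=
  ∀ G : Game Γ, C G → ∃ (m0 : Fin k) (μ : Fin k → Γ → Fin k) (c : G.V → Fin k → G.E),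
    G.Optimal W m0 μ c

/-- The same with one structure `(Fin k, m0, μ)` for all games of `C`. -/
def Suff {Γ : Type} (C : Game Γ → Prop) (W : Set (ℕ → Γ)) {k : ℕ} (m0 : Fin k)
    (μ : Fin k → Γ → Fin k) : Prop :=
  ∀ G : Game Γ, C G → ∃ c : G.V → Fin k → G.E, G.Optimal W m0 μ c

/-- The chromatic memory of `W` over `C`, for strategies that win from every vertex from which
Eve can win. -/
def UMem {Γ : Type} (C : Game Γ → Prop) (W : Set (ℕ → Γ)) (k : ℕ) : Prop :=
  IsLeast {k : ℕ | Bound C W k} k

/-- The case `k = 1` (theorem of Casares and Ohlmann): an omega-regular objective that is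
positional over one-player games is positional over all games. -/
def CaseOne : Prop :=
  ∀ (Γ : Type) (W : Set (ℕ → Γ)), Finite Γ → OmegaRegular W →
    Bound (fun G => G.OnePlayer) W 1 → Bound (fun _ => True) W 1

/-! ### The objective -/

theorem mem_W_iff {n : ℕ} (w : ℕ → Fin n) : w ∈ W n ↔ ∃ᶠ i in atTop, w (i + 1) ≠ w i := by
  constructor
  · rintro ⟨a, b, hab, ha, hb⟩
    intro hc
    simp only [ne_eq, not_not] at hc
    obtain ⟨N, hN⟩ := eventually_atTop.1 hc
    have hconst : ∀ i, N ≤ i → w i = w N := by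
      intro i hi
      induction i, hi using Nat.le_induction with
      | base => rfl
      | succ j hj ih => rw [hN j hj, ih]
    obtain ⟨i, hi, hia⟩ := (frequently_atTop.1 ha) N
    obtain ⟨j, hj, hjb⟩ := (frequently_atTop.1 hb) N
    exact hab (by rw [← hia, ← hjb, hconst i hi, hconst j hj])
  · intro hch
    have h1 : ∃ a, ∃ᶠ i in atTop, w i = a := by
      by_contra hno
      push Not at hno
      have : ∀ᶠ i in atTop, ∀ a, w i ≠ a := eventually_all.2 hno
      obtain ⟨i, hi⟩ := this.exists
      exact hi (w i) rfl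
    obtain ⟨a, ha⟩ := h1
    by_contra hno
    have h2 : ∀ b, ∀ᶠ i in atTop, b ≠ a → w i ≠ b := by
      intro b
      by_cases hb : b = a
      · exact Eventually.of_forall fun i h => absurd hb h
      · have : ¬ ∃ᶠ i in atTop, w i = b := fun h => hno ⟨a, b, Ne.symm hb, ha, h⟩
        have := not_frequently.1 this
        exact this.mono fun i hi _ => hi
    have h3 : ∀ᶠ i in atTop, w i = a := by
      refine (eventually_all.2 h2).mono fun i hi => ?_
      by_contra hne
      exact hi (w i) hne rfl
    obtain ⟨N, hN⟩ := eventually_atTop.1 h3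
    obtain ⟨i, hi, hc⟩ := (frequently_atTop.1 hch) N
    exact hc (by rw [hN i hi, hN (i + 1) (by omega)])

/-- The automaton: remember the last letter and whether it has just changed. -/
def autW (n : ℕ) : DPA (Fin n) where
  Q := Option (Fin n) × Bool
  fin := inferInstance
  q0 := (none, false)
  step q a := (some a, decide (q.1 ≠ some a))
  pr q := if q.2 then 2 else 1

theorem omegaRegular_W (n : ℕ) : OmegaRegular (W n) := by
  refine ⟨autW n, fun w => ?_⟩
  have hrun : ∀ i, ((autW n).run w (i + 1)).1 = some (w i) := fun i => rfl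
  have hpr : ∀ i, (autW n).pr ((autW n).run w (i + 2)) = if w (i + 1) ≠ w i then 2 else 1 := by
    intro i
    have : ((autW n).run w (i + 2)).2 = decide (some (w i) ≠ some (w (i + 1))) := rfl
    show (if ((autW n).run w (i + 2)).2 then 2 else 1) = _
    rw [this]
    by_cases h : w (i + 1) = w i
    · simp [h]
    · have h' : w i ≠ w (i + 1) := fun h'' => h h''.symm
      simp [h, h']
  have hle : ∀ q, (autW n).pr q ≤ 2 := by
    intro q
    show (if q.2 then 2 else 1) ≤ 2
    split_ifs <;> omega
  have hfr : (∃ᶠ i in atTop, w (i + 1) ≠ w i) ↔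
      ∃ᶠ i in atTop, (autW n).pr ((autW n).run w i) = 2 := by
    constructor
    · intro h
      rw [frequently_atTop] at h ⊢
      intro N
      obtain ⟨i, hi, hc⟩ := h N
      exact ⟨i + 2, by omega, by rw [hpr, if_pos hc]⟩
    · intro h
      rw [frequently_atTop] at h ⊢
      intro N
      obtain ⟨i, hi, hc⟩ := h (N + 2)
      obtain ⟨j, rfl⟩ : ∃ j, i = j + 2 := ⟨i - 2, by omega⟩
      refine ⟨j, by omega, ?_⟩
      intro hh
      rw [hpr, if_neg (not_not.2 hh)] at hc
      omega
  rw [mem_W_iff, hfr]
  constructor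
  · intro h
    refine ⟨2, ⟨1, rfl⟩, h, ?_⟩
    intro q hq hf
    obtain ⟨i, hi⟩ := hf.exists
    have := hle ((autW n).run w i)
    omega
  · rintro ⟨p, hp, hf, hq⟩
    have hp2 : p = 2 := by
      obtain ⟨i, hi0, hi⟩ := (frequently_atTop.1 hf) 2
      obtain ⟨j, rfl⟩ : ∃ j, i = j + 2 := ⟨i - 2, by omega⟩
      rw [hpr] at hi
      split_ifs at hi
      · exact hi.symm
      · subst hi
        exact absurd hp (by decide)
    subst hp2
    exact hf

/-! ### One-player games: two states are enough -/

section OneUpper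

variable {n : ℕ} (G : Game (Fin n))

/-- An infinite path from `v` seeing both `a` and `b` infinitely often. -/
def Good (a b : Fin n) (v : G.V) (e : ℕ → G.E) : Prop :=
  G.src (e 0) = v ∧ (∀ i, G.src (e (i + 1)) = G.tgt (e i)) ∧
    (∃ᶠ i in atTop, G.col (e i) = a) ∧ ∃ᶠ i in atTop, G.col (e i) = b

theorem Good.shift {G : Game (Fin n)} {a b : Fin n} {v : G.V} {e : ℕ → G.E}
    (h : Good G a b v e) : Good G a b (G.tgt (e 0)) (fun i => e (i + 1)) := by
  obtain ⟨h0, h1, h2, h3⟩ := h
  refine ⟨h1 0, fun i => h1 (i + 1), ?_, ?_⟩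
  · rw [frequently_atTop] at h2 ⊢
    intro N
    obtain ⟨i, hi, hc⟩ := h2 (N + 1)
    obtain ⟨j, rfl⟩ : ∃ j, i = j + 1 := ⟨i - 1, by omega⟩
    exact ⟨j, by omega, hc⟩
  · rw [frequently_atTop] at h3 ⊢
    intro N
    obtain ⟨i, hi, hc⟩ := h3 (N + 1)
    obtain ⟨j, rfl⟩ : ∃ j, i = j + 1 := ⟨i - 1, by omega⟩
    exact ⟨j, by omega, hc⟩

theorem exists_good_of_eveWins (h1 : G.OnePlayer) (hw : G.EveWins (W n)) :
    ∃ a b, a ≠ b ∧ ∃ e, Good G a b G.init e := by
  obtain ⟨σ, hσ, hwin⟩ := hw
  let H : ℕ → List G.E := fun n => Nat.rec [] (fun _ h => σ h :: h) n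
  have hH : ∀ n, G.hist (fun i => σ (H i)) n = H n := by
    intro n
    induction n with
    | zero => rfl
    | succ n ih => show σ (H n) :: G.hist (fun i => σ (H i)) n = σ (H n) :: H n
                   rw [ih]
  have hplay : G.IsPlay (fun i => σ (H i)) := by
    refine ⟨hσ [] (h1 _), fun i => ?_⟩
    exact hσ (H (i + 1)) (h1 _)
  have hin := hwin (fun i => σ (H i)) hplay (fun n _ => by rw [hH])
  obtain ⟨a, b, hab, ha, hb⟩ := hin
  exact ⟨a, b, hab, _, hplay.1, hplay.2, ha, hb⟩

theorem pick_one (a b c : Fin n) (hc : c = a ∨ c = b) (v : G.V) :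
    ∃ e0, G.src e0 = v ∧ ((∃ e, Good G a b v e) → (∃ e, Good G a b (G.tgt e0) e) ∧
      ∀ k, (∃ e, Good G a b v e ∧ G.col (e k) = c) → G.col e0 = c ∨
        ∃ k', k' < k ∧ ∃ e, Good G a b (G.tgt e0) e ∧ G.col (e k') = c) := by
  classical
  by_cases hv : ∃ e, Good G a b v e
  · have hD : ∃ k, ∃ e, Good G a b v e ∧ G.col (e k) = c := by
      obtain ⟨e, he⟩ := hv
      have hfr : ∃ᶠ i in atTop, G.col (e i) = c := by
        rcases hc with rfl | rfl
        · exact he.2.2.1
        · exact he.2.2.2
      obtain ⟨k, hk⟩ := hfr.exists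
      exact ⟨k, e, he, hk⟩
    obtain ⟨e, he, hek⟩ := Nat.find_spec hD
    refine ⟨e 0, he.1, fun _ => ⟨⟨_, he.shift⟩, fun k hk => ?_⟩⟩
    have hle : Nat.find hD ≤ k := Nat.find_min' hD hk
    rcases Nat.eq_zero_or_pos (Nat.find hD) with h0 | h0
    · rw [h0] at hek
      exact Or.inl hek
    · refine Or.inr ⟨Nat.find hD - 1, by omega, _, he.shift, ?_⟩
      show G.col (e (Nat.find hD - 1 + 1)) = c
      rw [Nat.sub_add_cancel h0]
      exact hek
  · obtain ⟨e0, he0⟩ := G.out v
    exact ⟨e0, he0, fun h => absurd h hv⟩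

theorem chromWins_two (h1 : G.OnePlayer) (hw : G.EveWins (W n)) : G.ChromWins (W n) 2 := by
  classical
  obtain ⟨a, b, hab, hgood⟩ := exists_good_of_eveWins G h1 hw
  let t : Fin 2 → Fin n := fun m => if m = 0 then a else b
  have ht : ∀ m, t m = a ∨ t m = b := by
    intro m
    by_cases hm : m = 0
    · exact Or.inl (if_pos hm)
    · exact Or.inr (if_neg hm)
  let μ : Fin 2 → Fin n → Fin 2 := fun m x => if x = a then 1 else if x = b then 0 else m
  choose c hc1 hc2 using fun (v : G.V) (m : Fin 2) => pick_one G a b (t m) (ht m) v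
  refine ⟨0, μ, c, fun v _ m => hc1 v m, fun e he hcons => ?_⟩
  set s : ℕ → Fin 2 := Game.mem 0 μ (fun i => G.col (e i)) with hs
  have hsucc : ∀ i, s (i + 1) = μ (s i) (G.col (e i)) := fun i => rfl
  have hcons' : ∀ i, e i = c (G.src (e i)) (s i) := fun i => hcons i (h1 _)
  -- every vertex of the play is good
  have hinv : ∀ i, ∃ p, Good G a b (G.src (e i)) p := by
    intro i
    induction i with
    | zero => rw [he.1]; exact hgood
    | succ i ih =>
      rw [he.2 i, hcons' i]
      exact ((hc2 _ (s i)) ih).1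
  -- the wanted letter is seen, or the state changes
  have hsee : ∀ k i, (∃ p, Good G a b (G.src (e i)) p ∧ G.col (p k) = t (s i)) →
      ∃ j, i ≤ j ∧ G.col (e j) = t (s j) := by
    intro k
    induction k using Nat.strong_induction_on with
    | _ k ih =>
      intro i hk
      rcases ((hc2 _ (s i)) (hinv i)).2 k hk with h | ⟨k', hk', h⟩
      · rw [← hcons' i] at h
        exact ⟨i, le_rfl, h⟩
      · by_cases hsi : s (i + 1) = s i
        · rw [← hcons' i, ← he.2 i, ← hsi] at h
          obtain ⟨j, hj, hj'⟩ := ih k' hk' (i + 1) h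
          exact ⟨j, by omega, hj'⟩
        · -- the state changed, so the wanted letter was seen
          refine ⟨i, le_rfl, ?_⟩
          rw [hsucc] at hsi
          by_cases hx : G.col (e i) = a
          · have h2 : μ (s i) (G.col (e i)) = 1 := if_pos hx
            rw [h2] at hsi
            have h3 : s i = 0 := by
              revert hsi
              generalize s i = m
              fin_cases m <;> simp
            rw [h3, hx]
            rfl
          · by_cases hy : G.col (e i) = b
            · have h2 : μ (s i) (G.col (e i)) = 0 := by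
                show (if _ then _ else _) = _
                rw [if_neg hx, if_pos hy]
              rw [h2] at hsi
              have h3 : ¬ s i = 0 := fun h => hsi h.symm
              show G.col (e i) = if s i = 0 then a else b
              rw [if_neg h3, hy]
            · exfalso
              apply hsi
              show (if _ then _ else _) = _
              rw [if_neg hx, if_neg hy]
  have hsee' : ∀ i, ∃ j, i ≤ j ∧ G.col (e j) = t (s j) := by
    intro i
    obtain ⟨p, hp⟩ := hinv i
    have hfr : ∃ᶠ k in atTop, G.col (p k) = t (s i) := by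
      rcases ht (s i) with h | h
      · rw [h]; exact hp.2.2.1
      · rw [h]; exact hp.2.2.2
    obtain ⟨k, hk⟩ := hfr.exists
    exact hsee k i ⟨p, hp, hk⟩
  have hfa : ∃ᶠ i in atTop, G.col (e i) = a := by
    rw [frequently_atTop]
    intro N
    by_contra hno
    push Not at hno
    obtain ⟨i, hi, hci⟩ := hsee' N
    have hsi : s i ≠ 0 := by
      intro h
      rw [h] at hci
      exact hno i hi hci
    have hcb : G.col (e i) = b := by
      rw [hci]; exact if_neg hsi
    have hkeep : ∀ j, i + 1 ≤ j → s j = 0 := by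
      intro j hj
      induction j, hj using Nat.le_induction with
      | base =>
        rw [hsucc]
        show (if _ then _ else _) = _
        rw [if_neg (hno i hi), if_pos hcb]
      | succ j hj ih =>
        rw [hsucc]
        show (if _ then _ else _) = _
        rw [if_neg (hno j (by omega)), ih]
        simp
    obtain ⟨j, hj, hcj⟩ := hsee' (i + 1)
    rw [hkeep j hj] at hcj
    exact hno j (by omega) hcj
  have hfb : ∃ᶠ i in atTop, G.col (e i) = b := by
    rw [frequently_atTop]
    intro N
    by_contra hno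
    push Not at hno
    obtain ⟨i, hi, hci⟩ := hsee' N
    have hsi : s i = 0 := by
      by_contra h
      apply hno i hi
      rw [hci]; exact if_neg h
    have hca : G.col (e i) = a := by
      rw [hci]; exact if_pos hsi
    have hkeep : ∀ j, i + 1 ≤ j → s j = 1 := by
      intro j hj
      induction j, hj using Nat.le_induction with
      | base =>
        rw [hsucc]
        show (if _ then _ else _) = _
        rw [if_pos hca]
      | succ j hj ih =>
        rw [hsucc]
        show (if _ then _ else _) = _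
        rw [if_neg (hno j (by omega)), ih]
        simp
    obtain ⟨j, hj, hcj⟩ := hsee' (i + 1)
    rw [hkeep j hj] at hcj
    exact hno j (by omega) (by rw [hcj]; exact if_neg (by decide))
  exact ⟨a, b, hab, hfa, hfb⟩

end OneUpper

/-! ### Arbitrary games: `n` states are enough -/

section Upper

variable {n : ℕ} (G : Game (Fin n))

/-- A history (latest edge first) that is a path from the initial vertex and follows `σ`. -/
def Cons (σ : List G.E → G.E) : List G.E → Prop
  | [] => True
  | e :: h => Cons σ h ∧ G.src e = G.cur h ∧ (G.cur h ∈ G.eve → e = σ h)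

theorem exists_ext : ∀ (h : List G.E) (g : ℕ → G.E),
    ∃ e : ℕ → G.E, G.hist e h.length = h ∧ ∀ i, e (h.length + i) = g i := by
  intro h
  induction h with
  | nil => intro g; exact ⟨g, rfl, fun i => by simp⟩
  | cons x h ih =>
    intro g
    obtain ⟨e, he1, he2⟩ := ih (fun i => Nat.casesOn i x g)
    refine ⟨e, ?_, fun i => ?_⟩
    · show e h.length :: G.hist e h.length = x :: h
      rw [he1]
      congr 1
      exact he2 0
    · have := he2 (i + 1)
      show e (h.length + 1 + i) = g i
      rw [show h.length + 1 + i = h.length + (i + 1) by omega]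
      exact this

/-- One step along an edge coloured `a`. -/
def Rel (σ : List G.E → G.E) (a : Fin n) (h' h : List G.E) : Prop :=
  ∃ e, h' = e :: h ∧ Cons G σ h' ∧ G.col e = a

theorem cur_hist (e : ℕ → G.E) (he : G.IsPlay e) (i : ℕ) : G.cur (G.hist e i) = G.src (e i) := by
  cases i with
  | zero => exact he.1.symm
  | succ i => exact (he.2 i).symm

theorem rel_wf (σ : List G.E → G.E)
    (hwin : ∀ e, G.IsPlay e → (∀ n, G.src (e n) ∈ G.eve → e n = σ (G.hist e n)) →
      (fun n => G.col (e n)) ∈ W n) (a : Fin n) : WellFounded (Rel G σ a) := by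
  rw [wellFounded_iff_isEmpty_descending_chain]
  refine ⟨fun ⟨f, hf⟩ => ?_⟩
  choose g hg1 hg2 hg3 using hf
  obtain ⟨e, he1, he2⟩ := exists_ext G (f 0) g
  have hh : ∀ i, G.hist e ((f 0).length + i) = f i := by
    intro i
    induction i with
    | zero => exact he1
    | succ i ih =>
      show e ((f 0).length + i) :: G.hist e ((f 0).length + i) = f (i + 1)
      rw [ih, hg1 i, he2]
  have hdown : ∀ j i, Cons G σ (G.hist e (i + j)) → Cons G σ (G.hist e i) := by
    intro j
    induction j with
    | zero => intro i h; exact h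
    | succ j ih => intro i h; exact ih i h.1
  have hcons : ∀ i, Cons G σ (G.hist e i) := by
    intro i
    apply hdown ((f 0).length + 1) i
    rw [show i + ((f 0).length + 1) = (f 0).length + (i + 1) by omega, hh]
    exact hg2 i
  have hplay : G.IsPlay e := by
    refine ⟨(hcons 1).2.1, fun i => (hcons (i + 2)).2.1⟩
  have hfol : ∀ i, G.src (e i) ∈ G.eve → e i = σ (G.hist e i) := by
    intro i hi
    rw [← cur_hist G e hplay i] at hi
    exact (hcons (i + 1)).2.2 hi
  have hin := hwin e hplay hfol
  rw [mem_W_iff] at hin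
  obtain ⟨i, hi, hc⟩ := (frequently_atTop.1 hin) (f 0).length
  obtain ⟨j, rfl⟩ := Nat.exists_eq_add_of_le hi
  apply hc
  show G.col (e ((f 0).length + j + 1)) = G.col (e ((f 0).length + j))
  rw [show (f 0).length + j + 1 = (f 0).length + (j + 1) by omega, he2, he2, hg3, hg3]

/-- A rank of histories that decreases along edges coloured `a`. -/
theorem exists_rank (σ : List G.E → G.E)
    (hwin : ∀ e, G.IsPlay e → (∀ n, G.src (e n) ∈ G.eve → e n = σ (G.hist e n)) →
      (fun n => G.col (e n)) ∈ W n) (a : Fin n) :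
    ∃ ρ : List G.E → Ordinal.{0}, ∀ e h, Cons G σ (e :: h) → G.col e = a → ρ (e :: h) < ρ h := by
  have : IsWellFounded (List G.E) (Rel G σ a) := ⟨rel_wf G σ hwin a⟩
  refine ⟨fun h => IsWellFounded.rank (Rel G σ a) h, fun e h hc hcol => ?_⟩
  exact IsWellFounded.rank_lt_of_rel (show Rel G σ a (e :: h) h from ⟨e, rfl, hc, hcol⟩)

theorem chromWins_n (hn : 0 < n) (hw : G.EveWins (W n)) : G.ChromWins (W n) n := by
  classical
  obtain ⟨σ, hσ, hwin⟩ := hw
  choose ρ hρ using exists_rank G σ hwin
  -- a history of least rank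
  have hmin : ∀ (v : G.V) (a : Fin n), ∃ h, (∃ h', Cons G σ h' ∧ G.cur h' = v) →
      Cons G σ h ∧ G.cur h = v ∧ ∀ h', Cons G σ h' → G.cur h' = v → ρ a h ≤ ρ a h' := by
    intro v a
    by_cases hv : ∃ h', Cons G σ h' ∧ G.cur h' = v
    · obtain ⟨h, hh, hm⟩ := (InvImage.wf (ρ a) Ordinal.lt_wf).has_min
        {h' | Cons G σ h' ∧ G.cur h' = v} hv
      exact ⟨h, fun _ => ⟨hh.1, hh.2, fun h' h1 h2 => not_lt.1 (hm h' ⟨h1, h2⟩)⟩⟩
    · exact ⟨[], fun h => absurd h hv⟩
  choose H hH using hmin
  let c : G.V → Fin n → G.E := fun v m =>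
    if ∃ h', Cons G σ h' ∧ G.cur h' = v then σ (H v m) else (G.out v).choose
  refine ⟨⟨0, hn⟩, fun _ x => x, c, fun v hv m => ?_, fun e he hcons => ?_⟩
  · by_cases hh : ∃ h', Cons G σ h' ∧ G.cur h' = v
    · show G.src (if _ then _ else _) = v
      rw [if_pos hh]
      have h2 := (hH v m hh).2.1
      have := hσ (H v m) (by rw [h2]; exact hv)
      rw [this, h2]
    · show G.src (if _ then _ else _) = v
      rw [if_neg hh]
      exact (G.out v).choose_spec
  · set s : ℕ → Fin n := Game.mem ⟨0, hn⟩ (fun _ x => x) (fun i => G.col (e i)) with hs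
    have hsucc : ∀ i, s (i + 1) = G.col (e i) := fun i => rfl
    -- one step
    have hstep : ∀ i, (∃ h', Cons G σ h' ∧ G.cur h' = G.src (e i)) →
        Cons G σ (e i :: H (G.src (e i)) (s i)) := by
      intro i hi
      obtain ⟨h1, h2, -⟩ := hH _ (s i) hi
      refine ⟨h1, h2.symm, fun h3 => ?_⟩
      rw [h2] at h3
      have := hcons i h3
      refine this.trans ?_
      show (if _ then _ else _) = _
      rw [if_pos hi]
    have hinv : ∀ i, ∃ h', Cons G σ h' ∧ G.cur h' = G.src (e i) := by
      intro i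
      induction i with
      | zero => exact ⟨[], trivial, he.1.symm⟩
      | succ i ih => exact ⟨_, hstep i ih, (he.2 i).symm⟩
    -- the state changes infinitely often
    have hch : ∀ N, ∃ i, N ≤ i ∧ G.col (e i) ≠ s i := by
      intro N
      by_contra hno
      push Not at hno
      have hs' : ∀ i, N ≤ i → s i = s N := by
        intro i hi
        induction i, hi using Nat.le_induction with
        | base => rfl
        | succ j hj ih => rw [hsucc, hno j hj, ih]
      have hdec : ∀ i, ρ (s N) (H (G.src (e (N + i + 1))) (s N)) <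
          ρ (s N) (H (G.src (e (N + i))) (s N)) := by
        intro i
        have h1 := hstep (N + i) (hinv _)
        rw [hs' (N + i) (by omega)] at h1
        have h2 : G.col (e (N + i)) = s N := by
          rw [hno (N + i) (by omega), hs' (N + i) (by omega)]
        have h3 := hρ (s N) _ _ h1 h2
        have h4 := (hH (G.src (e (N + i + 1))) (s N) (hinv _)).2.2 _ h1 (he.2 (N + i)).symm
        exact lt_of_le_of_lt h4 h3
      have hwf := (wellFounded_iff_isEmpty_descending_chain (r := ((· < ·) : Ordinal.{0} →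
        Ordinal.{0} → Prop))).1 Ordinal.lt_wf
      exact hwf.false ⟨fun i => ρ (s N) (H (G.src (e (N + i))) (s N)), fun i => hdec i⟩
    rw [mem_W_iff, frequently_atTop]
    intro N
    obtain ⟨i, hi, hc⟩ := hch (N + 1)
    obtain ⟨j, rfl⟩ : ∃ j, i = j + 1 := ⟨i - 1, by omega⟩
    exact ⟨j, by omega, hc⟩

end Upper

/-! ### One-player games: one state is not enough -/

/-- One vertex of Eve, with a loop of each colour. -/
def loopGame (n : ℕ) (hn : 0 < n) : Game (Fin n) where
  V := Unit
  E := Fin n
  src _ := ()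
  tgt _ := ()
  col e := e
  eve := Set.univ
  init := ()
  out _ := ⟨⟨0, hn⟩, rfl⟩

theorem loopGame_wins (n : ℕ) (hn : 2 ≤ n) : (loopGame n (by omega)).EveWins (W n) := by
  let σ : List (Fin n) → Fin n := fun h => if h.length % 2 = 0 then ⟨0, by omega⟩ else ⟨1, by omega⟩
  refine ⟨σ, fun h _ => rfl, fun e he hc => ?_⟩
  have hlen : ∀ i, ((loopGame n (by omega)).hist e i).length = i := by
    intro i
    induction i with
    | zero => rfl
    | succ i ih =>
      show ((loopGame n (by omega)).hist e i).length + 1 = i + 1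
      rw [ih]
  have hval : ∀ i, e i = (if i % 2 = 0 then ⟨0, by omega⟩ else ⟨1, by omega⟩ : Fin n) := by
    intro i
    refine (hc i trivial).trans ?_
    show (if ((loopGame n (by omega)).hist e i).length % 2 = 0 then _ else _) = _
    rw [hlen]
    rfl
  rw [mem_W_iff, frequently_atTop]
  intro N
  refine ⟨N, le_rfl, ?_⟩
  show e (N + 1) ≠ e N
  rw [hval, hval]
  rcases Nat.mod_two_eq_zero_or_one N with h | h
  · rw [if_neg (by omega : ¬ (N + 1) % 2 = 0), if_pos h]
    intro hh
    have := congrArg Fin.val hh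
    simp at this
  · rw [if_pos (by omega : (N + 1) % 2 = 0), if_neg (by omega : ¬ N % 2 = 0)]
    intro hh
    have := congrArg Fin.val hh
    simp at this

theorem two_le_of_loopGame (n : ℕ) (hn : 2 ≤ n) (k : ℕ)
    (h : (loopGame n (by omega)).ChromWins (W n) k) : 2 ≤ k := by
  obtain ⟨m0, μ, c, hc1, hc2⟩ := h
  by_contra hk
  have hk1 : ∀ m : Fin k, m = m0 := by
    intro m
    apply Fin.ext
    have := m.2
    have := m0.2
    omega
  have hin := hc2 (fun _ => c () m0) ⟨rfl, fun _ => rfl⟩ (fun i _ => by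
    show c () m0 = c () _
    rw [hk1 (Game.mem _ _ _ _)])
  rw [mem_W_iff] at hin
  obtain ⟨i, hi⟩ := hin.exists
  exact hi rfl

/-! ### Arbitrary games: fewer than `n` states are not enough -/

/-- The pairs of different letters. -/
abbrev Pair (n : ℕ) : Type := {p : Fin n × Fin n // p.1 ≠ p.2}

/-- Adam owns the vertices `inl i` and moves from there, with colour `i`, to any pair; at a pair
Eve picks one of its two letters `j` and moves, with colour `j`, to `inl j`. -/
def pairGame (n : ℕ) (hn : 2 ≤ n) : Game (Fin n) where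
  V := Fin n ⊕ Pair n
  E := (Fin n × Pair n) ⊕ (Pair n × Bool)
  src := Sum.elim (fun x => Sum.inl x.1) (fun x => Sum.inr x.1)
  tgt := Sum.elim (fun x => Sum.inr x.2)
    (fun x => Sum.inl (if x.2 then x.1.1.1 else x.1.1.2))
  col := Sum.elim (fun x => x.1) (fun x => if x.2 then x.1.1.1 else x.1.1.2)
  eve := Set.range Sum.inr
  init := Sum.inl ⟨0, by omega⟩
  out v := by
    rcases v with i | p
    · exact ⟨Sum.inl (i, ⟨(⟨0, by omega⟩, ⟨1, by omega⟩), by simp⟩), rfl⟩
    · exact ⟨Sum.inr (p, true), rfl⟩

theorem pairGame_wins (n : ℕ) (hn : 2 ≤ n) : (pairGame n hn).EveWins (W n) := by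
  classical
  let σ : List (pairGame n hn).E → (pairGame n hn).E := fun h =>
    match h with
    | Sum.inl (i, p) :: _ => Sum.inr (p, decide (p.1.1 ≠ i))
    | _ => Sum.inr (⟨(⟨0, by omega⟩, ⟨1, by omega⟩), by simp⟩, true)
  have hcur : ∀ h, (pairGame n hn).cur h ∈ (pairGame n hn).eve →
      ∃ i p t, h = Sum.inl (i, p) :: t := by
    intro h hh
    rcases h with _ | ⟨x, t⟩
    · obtain ⟨y, hy⟩ := hh
      exact absurd hy (by rintro ⟨⟩)
    · rcases x with ⟨i, p⟩ | ⟨p, b⟩
      · exact ⟨i, p, t, rfl⟩
      · obtain ⟨y, hy⟩ := hh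
        exact absurd hy (by rintro ⟨⟩)
  refine ⟨σ, fun h hh => ?_, fun e he hc => ?_⟩
  · obtain ⟨i, p, t, rfl⟩ := hcur h hh
    rfl
  · -- at each vertex of Eve the colour changes
    have hkey : ∀ i, (pairGame n hn).src (e (i + 1)) ∈ (pairGame n hn).eve →
        (pairGame n hn).col (e (i + 1)) ≠ (pairGame n hn).col (e i) := by
      intro i hi
      have h1 := hc (i + 1) hi
      have h2 : (pairGame n hn).cur ((pairGame n hn).hist e (i + 1)) ∈ (pairGame n hn).eve := by
        show (pairGame n hn).tgt (e i) ∈ _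
        rw [← he.2 i]
        exact hi
      obtain ⟨x, p, t, ht⟩ := hcur _ h2
      have h3 : e i = Sum.inl (x, p) := by
        have : e i :: (pairGame n hn).hist e i = Sum.inl (x, p) :: t := ht
        exact (List.cons.inj this).1
      rw [ht] at h1
      rw [h1, h3]
      show (if decide (p.1.1 ≠ x) = true then p.1.1 else p.1.2) ≠ x
      by_cases hp : p.1.1 = x
      · rw [if_neg (by simp [hp])]
        intro h
        exact p.2 (hp.trans h.symm)
      · rw [if_pos (by simp [hp])]
        exact hp
    have halt : ∀ i, (pairGame n hn).src (e i) ∈ (pairGame n hn).eve ∨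
        (pairGame n hn).src (e (i + 1)) ∈ (pairGame n hn).eve := by
      intro i
      rcases hx : e i with ⟨x, p⟩ | ⟨p, b⟩
      · right
        rw [he.2 i, hx]
        exact ⟨p, rfl⟩
      · left
        exact ⟨p, rfl⟩
    rw [mem_W_iff, frequently_atTop]
    intro N
    rcases halt (N + 1) with h | h
    · exact ⟨N, le_rfl, hkey N h⟩
    · exact ⟨N + 1, by omega, hkey (N + 1) h⟩

theorem le_of_pairGame (n : ℕ) (hn : 2 ≤ n) (k : ℕ) (h : (pairGame n hn).ChromWins (W n) k) :
    n ≤ k := by
  classical
  obtain ⟨m0, μ, c, hc1, hc2⟩ := h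
  by_contra hk
  -- Eve's edge at a pair
  have hform : ∀ (p : Pair n) (m : Fin k), ∃ b : Bool, c (Sum.inr p) m = Sum.inr (p, b) := by
    intro p m
    have h1 := hc1 (Sum.inr p) ⟨p, rfl⟩ m
    rcases hx : c (Sum.inr p) m with ⟨x, q⟩ | ⟨q, b⟩
    · rw [hx] at h1
      exact absurd h1 (by rintro ⟨⟩)
    · rw [hx] at h1
      have : q = p := Sum.inr.inj h1
      exact ⟨b, by rw [this]⟩
  -- some letter is chosen in every memory state, at some pair
  have hletter : ∃ i : Fin n, ∀ m : Fin k, ∃ p : Pair n,
      (pairGame n hn).col (c (Sum.inr p) m) = i := by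
    by_contra hno
    push Not at hno
    choose g hg using hno
    have hinj : Function.Injective g := by
      intro i j hij
      by_contra hne
      obtain ⟨b, hb⟩ := hform ⟨(i, j), hne⟩ (g i)
      have h1 := hg i ⟨(i, j), hne⟩
      have h2 := hg j ⟨(i, j), hne⟩
      rw [← hij, hb] at h2
      rw [hb] at h1
      cases b
      · exact h2 rfl
      · exact h1 rfl
    have := Fintype.card_le_of_injective g hinj
    simp only [Fintype.card_fin] at this
    exact hk this
  obtain ⟨i, hi⟩ := hletter
  choose P hP using hi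
  let w : ℕ → Fin n := fun t => if t = 0 then ⟨0, by omega⟩ else i
  let s : ℕ → Fin k := Game.mem m0 μ w
  let e : ℕ → (pairGame n hn).E := fun t =>
    if Even t then Sum.inl (w t, P (s (t + 1))) else c (Sum.inr (P (s t))) (s t)
  have hev : ∀ t, Even t → e t = Sum.inl (w t, P (s (t + 1))) := fun t ht => if_pos ht
  have hod : ∀ t, ¬ Even t → e t = c (Sum.inr (P (s t))) (s t) := fun t ht => if_neg ht
  have hcol : ∀ t, (pairGame n hn).col (e t) = w t := by
    intro t
    by_cases ht : Even t
    · rw [hev t ht]; rfl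
    · rw [hod t ht, hP]
      have : t ≠ 0 := by rintro rfl; exact ht ⟨0, rfl⟩
      exact (if_neg this).symm
  have hplay : (pairGame n hn).IsPlay e := by
    refine ⟨?_, fun t => ?_⟩
    · rw [hev 0 ⟨0, rfl⟩]; rfl
    · by_cases ht : Even t
      · have ht' : ¬ Even (t + 1) := by rw [Nat.even_add_one]; exact not_not.2 ht
        rw [hev t ht, hod _ ht']
        exact hc1 _ ⟨_, rfl⟩ _
      · have ht' : Even (t + 1) := by rw [Nat.even_add_one]; exact ht
        rw [hev _ ht']
        have h1 : (pairGame n hn).col (e t) = i := by rw [hod t ht, hP]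
        obtain ⟨b, hb⟩ := hform (P (s t)) (s t)
        rw [hod t ht, hb] at h1
        rw [hod t ht, hb]
        show Sum.inl (w (t + 1)) = Sum.inl (if b = true then _ else _)
        have h2 : w (t + 1) = i := if_neg (by omega)
        rw [h2]
        congr 1
        exact h1.symm
  have hcolfun : (fun t => (pairGame n hn).col (e t)) = w := funext hcol
  have hin := hc2 e hplay (fun t ht => by
    rw [hcolfun]
    by_cases hte : Even t
    · rw [hev t hte] at ht
      obtain ⟨y, hy⟩ := ht
      exact absurd hy (by rintro ⟨⟩)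
    · have h1 : (pairGame n hn).src (e t) = Sum.inr (P (s t)) := by
        rw [hod t hte]
        exact hc1 _ ⟨_, rfl⟩ _
      rw [h1]
      exact hod t hte)
  rw [hcolfun, mem_W_iff, frequently_atTop] at hin
  obtain ⟨t, ht, hne⟩ := hin 1
  apply hne
  show (if t + 1 = 0 then _ else i) = if t = 0 then _ else i
  rw [if_neg (by omega), if_neg (by omega)]

/-! ### The result -/

theorem literal_gap :
    (∃ (U : Set (ℕ → Fin 3)) (k k' : ℕ), OmegaRegular U ∧ k < k' ∧
      ChromMem (fun G => G.OnePlayer) U k ∧ ChromMem (fun _ => True) U k') ∧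
    ∀ n : ℕ, 2 ≤ n → OmegaRegular (W n) ∧
      ChromMem (fun G => G.OnePlayer) (W n) 2 ∧
      ChromMem (fun G => G.OnePlayer ∧ G.IsFinite) (W n) 2 ∧
      ChromMem (fun _ => True) (W n) n ∧
      ChromMem (fun G => G.IsFinite) (W n) n := by
  have main : ∀ n : ℕ, 2 ≤ n → OmegaRegular (W n) ∧
      ChromMem (fun G => G.OnePlayer) (W n) 2 ∧
      ChromMem (fun G => G.OnePlayer ∧ G.IsFinite) (W n) 2 ∧
      ChromMem (fun _ => True) (W n) n ∧
      ChromMem (fun G => G.IsFinite) (W n) n := by
    intro n hn
    have hloop1 : (loopGame n (by omega)).OnePlayer := fun _ => trivial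
    have hloop2 : (loopGame n (by omega)).IsFinite :=
      ⟨inferInstanceAs (Finite Unit), inferInstanceAs (Finite (Fin n))⟩
    have hpair : (pairGame n hn).IsFinite :=
      ⟨inferInstanceAs (Finite (Fin n ⊕ Pair n)),
        inferInstanceAs (Finite ((Fin n × Pair n) ⊕ (Pair n × Bool)))⟩
    refine ⟨omegaRegular_W n, ⟨?_, ?_⟩, ⟨?_, ?_⟩, ⟨?_, ?_⟩, ⟨?_, ?_⟩⟩
    · intro G hG hw
      exact chromWins_two G hG hw
    · intro k hk
      exact two_le_of_loopGame n hn k (hk _ hloop1 (loopGame_wins n hn))
    · intro G hG hw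
      exact chromWins_two G hG.1 hw
    · intro k hk
      exact two_le_of_loopGame n hn k (hk _ ⟨hloop1, hloop2⟩ (loopGame_wins n hn))
    · intro G _ hw
      exact chromWins_n G (by omega) hw
    · intro k hk
      exact le_of_pairGame n hn k (hk _ trivial (pairGame_wins n hn))
    · intro G _ hw
      exact chromWins_n G (by omega) hw
    · intro k hk
      exact le_of_pairGame n hn k (hk _ hpair (pairGame_wins n hn))
  refine ⟨⟨W 3, 2, 3, (main 3 (by omega)).1, by omega, (main 3 (by omega)).2.1,
    (main 3 (by omega)).2.2.2.1⟩, main⟩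

/-! ### The lift -/

section Uniform

variable {Γ : Type} {k : ℕ}

/-- In a one-player game Eve wins as soon as there is a play in the objective. -/
theorem onePlayer_wins (G : Game Γ) (hG : G.OnePlayer) {W : Set (ℕ → Γ)}
    {e : ℕ → G.E} (he : G.IsPlay e) (hW : (fun n => G.col (e n)) ∈ W) : G.EveWins W := by
  classical
  choose nx hnx using G.out
  let σ : List G.E → G.E := fun l =>
    if G.src (e l.length) = G.cur l then e l.length else nx (G.cur l)
  have hσ : ∀ l, G.src (σ l) = G.cur l := by
    intro l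
    by_cases h : G.src (e l.length) = G.cur l
    · simp only [σ, h, if_true]
    · simp only [σ, h, if_false]; exact hnx _
  have hσ2 : ∀ l, G.src (e l.length) = G.cur l → σ l = e l.length := by
    intro l h
    simp only [σ, h, if_true]
  refine ⟨σ, fun l _ => hσ l, ?_⟩
  intro p hp hconf
  have hlen : ∀ n, (G.hist p n).length = n := by
    intro n
    induction n with
    | zero => rfl
    | succ n ih => exact congrArg Nat.succ ih
  have hcur : ∀ n, G.cur (G.hist p n) = G.src (p n) := by
    intro n
    cases n with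
    | zero => exact hp.1.symm
    | succ n => exact (hp.2 n).symm
  have hpe : ∀ n, G.src (p n) = G.src (e n) → p n = e n := by
    intro n hn
    have h1 : p n = σ (G.hist p n) := hconf n (hG _)
    have h2 : G.src (e (G.hist p n).length) = G.cur (G.hist p n) := by
      rw [hlen, hcur, hn]
    rw [h1, hσ2 _ h2, hlen]
  have hall : ∀ n, p n = e n := by
    intro n
    induction n with
    | zero => exact hpe 0 (hp.1.trans he.1.symm)
    | succ n ih =>
      refine hpe (n + 1) ?_
      rw [hp.2 n, he.2 n, ih]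
  have : p = e := funext hall
  rw [this]
  exact hW

/-- Conversely, if Eve wins then there is a play in the objective. -/
theorem wins_play (G : Game Γ) {W : Set (ℕ → Γ)} (hG : G.OnePlayer) (h : G.EveWins W) :
    ∃ e, G.IsPlay e ∧ (fun n => G.col (e n)) ∈ W := by
  obtain ⟨σ, hσ, hwin⟩ := h
  let hs : ℕ → List G.E := fun n => Nat.rec [] (fun _ l => σ l :: l) n
  let e : ℕ → G.E := fun n => σ (hs n)
  have hs1 : ∀ n, hs (n + 1) = e n :: hs n := fun n => rfl
  have hhist : ∀ n, G.hist e n = hs n := by
    intro n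
    induction n with
    | zero => rfl
    | succ n ih => simp only [Game.hist, hs1, ih]
  have hplay : G.IsPlay e := by
    refine ⟨hσ _ (hG _), fun n => ?_⟩
    have : G.src (σ (hs (n + 1))) = G.cur (hs (n + 1)) := hσ _ (hG _)
    rw [hs1] at this
    exact this
  exact ⟨e, hplay, hwin e hplay fun n _ => by rw [hhist]⟩

/-- The words over `Fin k × Γ` whose first wrong state is smaller than the expected one, or
whose states are all right and whose second components form a word of `W`. -/
def Wl (W : Set (ℕ → Γ)) (m0 : Fin k) (μ : Fin k → Γ → Fin k) : Set (ℕ → Fin k × Γ) :=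
  {w | (∃ n, (∀ i < n, (w i).1 = Game.mem m0 μ (fun i => (w i).2) i) ∧
      (w n).1 < Game.mem m0 μ (fun i => (w i).2) n) ∨
    ((∀ n, (w n).1 = Game.mem m0 μ (fun i => (w i).2) n) ∧ (fun i => (w i).2) ∈ W)}

theorem Wl_ok {W : Set (ℕ → Γ)} {m0 : Fin k} {μ : Fin k → Γ → Fin k} {w : ℕ → Fin k × Γ}
    (hw : w ∈ Wl W m0 μ) (h : ∀ n, (w n).1 = Game.mem m0 μ (fun i => (w i).2) n) :
    (fun i => (w i).2) ∈ W := by
  rcases hw with ⟨n, -, hn⟩ | hw
  · exact absurd (h n) (ne_of_lt hn)
  · exact hw.2

theorem Wl_bad {W : Set (ℕ → Γ)} {m0 : Fin k} {μ : Fin k → Γ → Fin k} {w : ℕ → Fin k × Γ}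
    (hw : w ∈ Wl W m0 μ) {n : ℕ} (h : ∀ i < n, (w i).1 = Game.mem m0 μ (fun i => (w i).2) i)
    (hn : Game.mem m0 μ (fun i => (w i).2) n < (w n).1) : False := by
  rcases hw with ⟨m, hm, hm'⟩ | hw
  · rcases lt_trichotomy m n with hlt | heq | hgt
    · exact absurd (h m hlt) (ne_of_lt hm')
    · subst heq; exact absurd (lt_trans hm' hn) (lt_irrefl _)
    · exact absurd (hm n hgt) (ne_of_gt hn)
  · exact absurd (hw.1 n) (ne_of_gt hn)

/-- The automaton for `Wl`. -/
def autL (A : DPA Γ) (m0 : Fin k) (μ : Fin k → Γ → Fin k) : DPA (Fin k × Γ) where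
  Q := (Fin k × A.Q) ⊕ Bool
  fin := by have := A.fin; infer_instance
  q0 := Sum.inl (m0, A.q0)
  step q a := match q with
    | Sum.inl p => if a.1 = p.1 then Sum.inl (μ p.1 a.2, A.step p.2 a.2)
        else Sum.inr (decide (a.1 < p.1))
    | Sum.inr b => Sum.inr b
  pr q := match q with
    | Sum.inl p => A.pr p.2
    | Sum.inr b => if b then 0 else 1

theorem autL_run_ok (A : DPA Γ) (m0 : Fin k) (μ : Fin k → Γ → Fin k) (w : ℕ → Fin k × Γ) (N : ℕ)
    (h : ∀ i < N, (w i).1 = Game.mem m0 μ (fun i => (w i).2) i) :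
    (autL A m0 μ).run w N = Sum.inl (Game.mem m0 μ (fun i => (w i).2) N,
      A.run (fun i => (w i).2) N) := by
  induction N with
  | zero => rfl
  | succ N ih =>
    have h1 := ih fun i hi => h i (by omega)
    have h2 := h N (by omega)
    change (autL A m0 μ).step ((autL A m0 μ).run w N) (w N) = _
    rw [h1]
    simp only [autL, h2, if_true, Game.mem, DPA.run]

theorem autL_run_bad (A : DPA Γ) (m0 : Fin k) (μ : Fin k → Γ → Fin k) (w : ℕ → Fin k × Γ)
    (N : ℕ) (h : ∀ i < N, (w i).1 = Game.mem m0 μ (fun i => (w i).2) i)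
    (hN : (w N).1 ≠ Game.mem m0 μ (fun i => (w i).2) N) (n : ℕ) (hn : N + 1 ≤ n) :
    (autL A m0 μ).run w n =
      Sum.inr (decide ((w N).1 < Game.mem m0 μ (fun i => (w i).2) N)) := by
  have h3 := autL_run_ok A m0 μ w N h
  induction n, hn using Nat.le_induction with
  | base =>
    change (autL A m0 μ).step ((autL A m0 μ).run w N) (w N) = _
    rw [h3]
    simp only [autL, hN, if_false]
  | succ n hn ih =>
    change (autL A m0 μ).step ((autL A m0 μ).run w n) (w n) = _
    rw [ih]
    rfl

theorem omegaRegular_Wl {W : Set (ℕ → Γ)} (hW : OmegaRegular W) (m0 : Fin k)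
    (μ : Fin k → Γ → Fin k) : OmegaRegular (Wl W m0 μ) := by
  classical
  obtain ⟨A, hA⟩ := hW
  refine ⟨autL A m0 μ, fun w => ?_⟩
  by_cases hb : ∃ n, (w n).1 ≠ Game.mem m0 μ (fun i => (w i).2) n
  · let N := Nat.find hb
    have h1 : (w N).1 ≠ Game.mem m0 μ (fun i => (w i).2) N := Nat.find_spec hb
    have h2 : ∀ i < N, (w i).1 = Game.mem m0 μ (fun i => (w i).2) i := fun i hi => by
      have := Nat.find_min hb hi
      simpa using this
    have hrun := autL_run_bad A m0 μ w N h2 h1
    by_cases hlt : (w N).1 < Game.mem m0 μ (fun i => (w i).2) N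
    · have hpr : ∀ n, N + 1 ≤ n → (autL A m0 μ).pr ((autL A m0 μ).run w n) = 0 := fun n hn => by
        rw [hrun n hn]; simp only [autL, hlt, decide_true, if_true]
      constructor
      · intro _
        refine ⟨0, by simp, ?_, ?_⟩
        · exact (eventually_atTop.2 ⟨N + 1, hpr⟩).frequently
        · intro q hq hf
          obtain ⟨n, hn, h⟩ := (frequently_atTop.1 hf) (N + 1)
          rw [hpr n hn] at h
          omega
      · intro _
        exact Or.inl ⟨N, h2, hlt⟩
    · have hpr : ∀ n, N + 1 ≤ n → (autL A m0 μ).pr ((autL A m0 μ).run w n) = 1 := fun n hn => by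
        rw [hrun n hn]; simp [autL, hlt]
      have hgt : Game.mem m0 μ (fun i => (w i).2) N < (w N).1 :=
        lt_of_le_of_ne (not_lt.1 hlt) (Ne.symm h1)
      constructor
      · intro hw
        exact absurd (Wl_bad hw h2 hgt) id
      · rintro ⟨p, hp, hf, -⟩
        obtain ⟨n, hn, h⟩ := (frequently_atTop.1 hf) (N + 1)
        rw [hpr n hn] at h
        rw [← h] at hp
        exact absurd hp (by decide)
  · push Not at hb
    have hrun : ∀ n, (autL A m0 μ).pr ((autL A m0 μ).run w n) =
        A.pr (A.run (fun i => (w i).2) n) := fun n => by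
      rw [autL_run_ok A m0 μ w n fun i _ => hb i]; rfl
    have h1 : w ∈ Wl W m0 μ ↔ (fun i => (w i).2) ∈ W :=
      ⟨fun h => Wl_ok h hb, fun h => Or.inr ⟨hb, h⟩⟩
    rw [h1, hA]
    unfold DPA.Accepts
    simp only [hrun]

/-- The product of a game with a memory structure. -/
def prodGame (G : Game Γ) (m0 : Fin k) (μ : Fin k → Γ → Fin k) : Game (Fin k × Γ) where
  V := G.V × Fin k
  E := G.E × Fin k
  src p := (G.src p.1, p.2)
  tgt p := (G.tgt p.1, μ p.2 (G.col p.1))
  col p := (p.2, G.col p.1)
  eve := {p | p.1 ∈ G.eve}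
  init := (G.init, m0)
  out := fun p => by
    obtain ⟨e, he⟩ := G.out p.1
    exact ⟨(e, p.2), by simp [he]⟩

theorem prodGame_mem {G : Game Γ} {m0 : Fin k} {μ : Fin k → Γ → Fin k}
    {e : ℕ → (prodGame G m0 μ).E} (he : (prodGame G m0 μ).IsPlay e) (n : ℕ) :
    (e n).2 = Game.mem m0 μ (fun i => G.col (e i).1) n := by
  induction n with
  | zero => exact congrArg Prod.snd he.1
  | succ n ih =>
    have := congrArg Prod.snd (he.2 n)
    simp only [prodGame] at this
    rw [this, ih]
    rfl

theorem prodGame_play {G : Game Γ} {m0 : Fin k} {μ : Fin k → Γ → Fin k}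
    {e : ℕ → (prodGame G m0 μ).E} (he : (prodGame G m0 μ).IsPlay e) :
    G.IsPlay fun n => (e n).1 :=
  ⟨congrArg Prod.fst he.1, fun n => congrArg Prod.fst (he.2 n)⟩

/-- The history in the game of a history in the product. -/
def prjL {G : Game Γ} {m0 : Fin k} {μ : Fin k → Γ → Fin k} :
    List (prodGame G m0 μ).E → List G.E
  | [] => []
  | a :: l => a.1 :: prjL l

theorem prjL_cur {G : Game Γ} {m0 : Fin k} {μ : Fin k → Γ → Fin k}
    (l : List (prodGame G m0 μ).E) : G.cur (prjL l) = ((prodGame G m0 μ).cur l).1 := by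
  cases l <;> rfl

theorem prjL_hist {G : Game Γ} {m0 : Fin k} {μ : Fin k → Γ → Fin k}
    (e : ℕ → (prodGame G m0 μ).E) (n : ℕ) :
    G.hist (fun n => (e n).1) n = prjL ((prodGame G m0 μ).hist e n) := by
  induction n with
  | zero => rfl
  | succ n ih => simp only [Game.hist, prjL, ih]

theorem prodGame_wins {W : Set (ℕ → Γ)} {G : Game Γ} (m0 : Fin k) (μ : Fin k → Γ → Fin k)
    (h : G.EveWins W) : (prodGame G m0 μ).EveWins (Wl W m0 μ) := by
  obtain ⟨σ, hσ, hwin⟩ := h
  refine ⟨fun l => (σ (prjL l), ((prodGame G m0 μ).cur l).2), ?_, ?_⟩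
  · intro l hl
    have h1 : G.cur (prjL l) ∈ G.eve := by
      rw [prjL_cur]; exact hl
    have h2 := hσ _ h1
    rw [prjL_cur] at h2
    exact Prod.ext h2 rfl
  · intro e he hc
    refine Or.inr ⟨fun n => prodGame_mem he n, ?_⟩
    refine hwin (fun n => (e n).1) (prodGame_play he) ?_
    intro n hn
    have h1 := hc n hn
    rw [prjL_hist]
    exact congrArg Prod.fst h1

/-- If `Wl` is positional over all games, the structure suffices for `W` over all games. -/
theorem suff_of_positional {W : Set (ℕ → Γ)} {m0 : Fin k} {μ : Fin k → Γ → Fin k}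
    (h : Bound (fun _ => True) (Wl W m0 μ) 1) : Suff (fun _ => True) W m0 μ := by
  intro G _
  obtain ⟨a0, ν, c, hc, hwin⟩ := h (prodGame G m0 μ) trivial
  refine ⟨fun v m => (c (v, m) 0).1, ?_, ?_⟩
  · intro v hv m
    exact congrArg Prod.fst (hc (v, m) hv 0)
  · intro v hv e he hconf
    have hv' : ((prodGame G m0 μ).startAt (v, m0)).EveWins (Wl W m0 μ) :=
      prodGame_wins (G := G.startAt v) m0 μ hv
    have hplay : ((prodGame G m0 μ).startAt (v, m0)).IsPlay
        fun n => (e n, Game.mem m0 μ (fun i => G.col (e i)) n) := by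
      refine ⟨Prod.ext he.1 rfl, fun n => Prod.ext (he.2 n) rfl⟩
    have h1 := hwin (v, m0) hv' _ hplay ?_
    · exact Wl_ok h1 fun n => rfl
    · intro n hn
      have h2 := hconf n hn
      rw [Subsingleton.elim (Game.mem a0 ν _ n) 0]
      refine Prod.ext h2 ?_
      exact (congrArg Prod.snd (hc (G.src (e n), _) hn 0)).symm

theorem mem_congr {m0 : Fin k} {μ : Fin k → Γ → Fin k} {w w' : ℕ → Γ} {n : ℕ}
    (h : ∀ i < n, w i = w' i) : Game.mem m0 μ w n = Game.mem m0 μ w' n := by
  induction n with
  | zero => rfl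
  | succ n ih =>
    simp only [Game.mem]
    rw [ih fun i hi => h i (by omega), h n (by omega)]

/-- A consistent edge (its label is the least one at its source, and the next expected state is
the least label at its target). -/
def LCons (H : Game (Fin k × Γ)) (μ : Fin k → Γ → Fin k) (ell : H.V → Fin k) (f : H.E) : Prop :=
  (H.col f).1 = ell (H.src f) ∧ ell (H.tgt f) = μ (H.col f).1 (H.col f).2

/-- A good edge (the next expected state is larger than the least label at its target). -/
def LGood (H : Game (Fin k × Γ)) (μ : Fin k → Γ → Fin k) (ell : H.V → Fin k) (f : H.E) : Prop :=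
  (H.col f).1 = ell (H.src f) ∧ ell (H.tgt f) < μ (H.col f).1 (H.col f).2

/-- A good edge can be reached by `n` consistent edges. -/
def LD (H : Game (Fin k × Γ)) (μ : Fin k → Γ → Fin k) (ell : H.V → Fin k) : ℕ → H.V → Prop
  | 0, u => ∃ f, H.src f = u ∧ LGood H μ ell f
  | n + 1, u => ∃ f, H.src f = u ∧ LCons H μ ell f ∧ LD H μ ell n (H.tgt f)

/-- The vertices that cannot reach a good edge but have an infinite path of consistent edges. -/
def LL (H : Game (Fin k × Γ)) (μ : Fin k → Γ → Fin k) (ell : H.V → Fin k) : Set H.V :=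
  {u | (¬ ∃ n, LD H μ ell n u) ∧ ∃ e : ℕ → H.E, H.src (e 0) = u ∧
    (∀ n, H.src (e (n + 1)) = H.tgt (e n)) ∧ ∀ n, LCons H μ ell (e n)}

/-- If the structure suffices for `W` over one-player games, then `Wl` is positional over
one-player games. -/
theorem positional_of_suff {W : Set (ℕ → Γ)} {m0 : Fin k} {μ : Fin k → Γ → Fin k}
    (h : Suff (fun G => G.OnePlayer) W m0 μ) :
    Bound (fun G => G.OnePlayer) (Wl W m0 μ) 1 := by
  classical
  intro H hH
  -- the least state label of an outgoing edge
  have hmin : ∀ v, ∃ f, H.src f = v ∧ ∀ g, H.src g = v → (H.col f).1 ≤ (H.col g).1 := by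
    intro v
    obtain ⟨f0, hf0⟩ := H.out v
    obtain ⟨m, ⟨f, hf, hfm⟩, hm⟩ := (wellFounded_lt (α := Fin k)).has_min
      {m | ∃ f, H.src f = v ∧ (H.col f).1 = m} ⟨_, f0, hf0, rfl⟩
    refine ⟨f, hf, fun g hg => ?_⟩
    rw [hfm]
    exact not_lt.1 (hm _ ⟨g, hg, rfl⟩)
  choose mf hmf1 hmf2 using hmin
  let ell : H.V → Fin k := fun v => (H.col (mf v)).1
  have hle : ∀ f, ell (H.src f) ≤ (H.col f).1 := fun f => hmf2 _ f rfl
  have hmem : ∀ e : ℕ → H.E, (∀ n, H.src (e (n + 1)) = H.tgt (e n)) → ell (H.src (e 0)) = m0 →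
      ∀ n, (∀ i < n, LCons H μ ell (e i)) →
        Game.mem m0 μ (fun i => (H.col (e i)).2) n = ell (H.src (e n)) := by
    intro e he h0 n
    induction n with
    | zero => intro _; exact h0.symm
    | succ n ih =>
      intro hc
      have h1 := ih fun i hi => hc i (by omega)
      have h2 := hc n (by omega)
      simp only [Game.mem]
      rw [h1, ← h2.1, ← h2.2, he n]
  have hLstep : ∀ u ∈ LL H μ ell, ∀ e : ℕ → H.E, H.src (e 0) = u →
      (∀ n, H.src (e (n + 1)) = H.tgt (e n)) → (∀ n, LCons H μ ell (e n)) →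
        ∀ n, H.src (e n) ∈ LL H μ ell := by
    intro u hu e he0 he hc n
    induction n with
    | zero => rw [he0]; exact hu
    | succ n ih =>
      rw [he n]
      refine ⟨fun ⟨m, hm⟩ => ih.1 ⟨m + 1, e n, rfl, hc n, hm⟩, fun i => e (n + 1 + i), ?_, ?_, ?_⟩
      · exact he n
      · intro i; exact he (n + 1 + i)
      · intro i; exact hc _
  -- the strategy in `L`
  have hK : ∃ cK : H.V → Fin k → H.E,
      (∀ u ∈ LL H μ ell, ∀ m, H.src (cK u m) = u ∧ LCons H μ ell (cK u m) ∧ H.tgt (cK u m) ∈ LL H μ ell) ∧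
      ∀ v ∈ LL H μ ell, ell v = m0 →
        (∃ p : ℕ → H.E, H.src (p 0) = v ∧ (∀ n, H.src (p (n + 1)) = H.tgt (p n)) ∧
          (∀ n, LCons H μ ell (p n)) ∧ (fun n => (H.col (p n)).2) ∈ W) →
        ∀ e : ℕ → H.E, H.src (e 0) = v → (∀ n, H.src (e (n + 1)) = H.tgt (e n)) →
          (∀ n, e n = cK (H.src (e n)) (ell (H.src (e n)))) →
          (fun n => (H.col (e n)).2) ∈ W := by
    by_cases hne : (LL H μ ell).Nonempty
    · obtain ⟨u0, hu0⟩ := hne
      let K : Game Γ :=
        { V := {u // u ∈ LL H μ ell}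
          E := {f // LCons H μ ell f ∧ H.src f ∈ LL H μ ell ∧ H.tgt f ∈ LL H μ ell}
          src := fun f => ⟨H.src f.1, f.2.2.1⟩
          tgt := fun f => ⟨H.tgt f.1, f.2.2.2⟩
          col := fun f => (H.col f.1).2
          eve := Set.univ
          init := ⟨u0, hu0⟩
          out := by
            rintro ⟨u, hu⟩
            obtain ⟨e, he0, he, hc⟩ := hu.2
            have h1 := hLstep u hu e he0 he hc 1
            rw [he 0] at h1
            exact ⟨⟨e 0, hc 0, by rw [he0]; exact hu, h1⟩, Subtype.ext he0⟩ }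
      obtain ⟨c, hc, hwin⟩ := h K (fun _ => trivial)
      refine ⟨fun (u : H.V) (m : Fin k) => if hu : u ∈ LL H μ ell then (c ⟨u, hu⟩ m).1 else mf u, ?_, ?_⟩
      · intro u hu m
        simp only [dif_pos hu]
        have h1 : K.src (c ⟨u, hu⟩ m) = ⟨u, hu⟩ := hc ⟨u, hu⟩ trivial m
        exact ⟨congrArg Subtype.val h1, (c ⟨u, hu⟩ m).2.1, (c ⟨u, hu⟩ m).2.2.2⟩
      · intro v hv hv0 hp e he0 he hconf
        obtain ⟨p, hp0, hp1, hpc, hpW⟩ := hp
        have hpL := hLstep v hv p hp0 hp1 hpc
        -- Eve wins in `K` from `v`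
        let pK : ℕ → K.E := fun n => ⟨p n, hpc n, hpL n, by rw [← hp1 n]; exact hpL (n + 1)⟩
        have hpK : (K.startAt ⟨v, hv⟩).IsPlay pK :=
          ⟨Subtype.ext hp0, fun n => Subtype.ext (hp1 n)⟩
        have hw : (K.startAt ⟨v, hv⟩).EveWins W :=
          onePlayer_wins (K.startAt ⟨v, hv⟩) (fun _ => trivial) hpK hpW
        -- the play stays in `L`
        have heL : ∀ n, H.src (e n) ∈ LL H μ ell := by
          intro n
          induction n with
          | zero => rw [he0]; exact hv
          | succ n ih =>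
            rw [he n, hconf n]
            simp only [dif_pos ih]
            exact (c ⟨_, ih⟩ _).2.2.2
        have hec : ∀ n, e n = (c ⟨H.src (e n), heL n⟩ (ell (H.src (e n)))).1 := by
          intro n
          have h1 := hconf n
          simp only [dif_pos (heL n)] at h1
          exact h1
        have hecons : ∀ n, LCons H μ ell (e n) := by
          intro n
          rw [hec n]
          exact (c ⟨H.src (e n), heL n⟩ (ell (H.src (e n)))).2.1
        let eK : ℕ → K.E := fun n => ⟨e n, hecons n, heL n, by rw [← he n]; exact heL (n + 1)⟩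
        have heK : (K.startAt ⟨v, hv⟩).IsPlay eK :=
          ⟨Subtype.ext he0, fun n => Subtype.ext (he n)⟩
        refine hwin ⟨v, hv⟩ hw eK heK fun n _ => ?_
        have h1 : Game.mem m0 μ (fun i => K.col (eK i)) n = ell (H.src (e n)) :=
          hmem e he (by rw [he0]; exact hv0) n fun i _ => hecons i
        rw [h1]
        exact Subtype.ext (hec n)
    · refine ⟨fun u _ => mf u, fun u hu => absurd ⟨u, hu⟩ hne, fun v hv => absurd ⟨v, hv⟩ hne⟩
  obtain ⟨cK, hK1, hK2⟩ := hK
  -- the positional strategy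
  have hσ : ∀ v, ∃ f, H.src f = v ∧ (H.col f).1 = ell v ∧
      (∀ n, LD H μ ell n v → LGood H μ ell f ∨ (LCons H μ ell f ∧ ∃ m < n, LD H μ ell m (H.tgt f))) ∧
      ((¬ ∃ n, LD H μ ell n v) → v ∈ LL H μ ell → f = cK v (ell v)) := by
    intro v
    by_cases hB : ∃ n, LD H μ ell n v
    · have h1 := Nat.find_spec hB
      have h2 := fun n (hn : LD H μ ell n v) => Nat.find_min' hB hn
      generalize Nat.find hB = N at h1 h2
      cases N with
      | zero =>
        obtain ⟨f, hf, hg⟩ := h1
        exact ⟨f, hf, by rw [hg.1, hf], fun _ _ => Or.inl hg, fun hno => absurd hB hno⟩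
      | succ N =>
        obtain ⟨f, hf, hc, hD⟩ := h1
        exact ⟨f, hf, by rw [hc.1, hf], fun n hn => Or.inr ⟨hc, N, by have := h2 n hn; omega, hD⟩,
          fun hno => absurd hB hno⟩
    · by_cases hL : v ∈ LL H μ ell
      · obtain ⟨h1, h2, -⟩ := hK1 v hL (ell v)
        exact ⟨cK v (ell v), h1, by rw [h2.1, h1], fun n hn => absurd ⟨n, hn⟩ hB, fun _ _ => rfl⟩
      · exact ⟨mf v, hmf1 v, rfl, fun n hn => absurd ⟨n, hn⟩ hB, fun _ hL' => absurd hL' hL⟩
  choose σ hσ1 hσ2 hσ3 hσ4 using hσ
  have hreach : ∀ N v, LD H μ ell N v → ∀ e : ℕ → H.E, H.src (e 0) = v →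
      (∀ n, H.src (e (n + 1)) = H.tgt (e n)) → (∀ n, e n = σ (H.src (e n))) →
        ∃ n, (∀ i < n, LCons H μ ell (e i)) ∧ LGood H μ ell (e n) := by
    intro N
    induction N using Nat.strong_induction_on with
    | _ N ih =>
      intro v hD e he0 he hconf
      have he0' : e 0 = σ v := by rw [hconf 0, he0]
      rcases hσ3 v N hD with hg | ⟨hc, m, hm, hD'⟩
      · exact ⟨0, fun i hi => absurd hi (by omega), by rw [he0']; exact hg⟩
      · obtain ⟨n, hn1, hn2⟩ := ih m hm (H.tgt (σ v)) hD' (fun i => e (i + 1))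
          (by rw [he 0, he0']) (fun i => he (i + 1)) (fun i => hconf (i + 1))
        refine ⟨n + 1, fun i hi => ?_, hn2⟩
        cases i with
        | zero => rw [he0']; exact hc
        | succ i => exact hn1 i (by omega)
  refine ⟨0, fun _ _ => 0, fun v _ => σ v, fun v _ _ => hσ1 v, ?_⟩
  intro v hv e he hconf
  have hconf' : ∀ n, e n = σ (H.src (e n)) := fun n => hconf n (hH _)
  have he0 : H.src (e 0) = v := he.1
  have he1 : ∀ n, H.src (e (n + 1)) = H.tgt (e n) := he.2
  have hlab : ∀ n, (H.col (e n)).1 = ell (H.src (e n)) := by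
    intro n
    conv_lhs => rw [hconf' n]
    exact hσ2 _
  obtain ⟨p, hp, hpW⟩ := wins_play (H.startAt v) hH hv
  have hp0 : H.src (p 0) = v := hp.1
  have hp1 : ∀ n, H.src (p (n + 1)) = H.tgt (p n) := hp.2
  have hpW' : (fun n => H.col (p n)) ∈ Wl W m0 μ := hpW
  rcases lt_trichotomy (ell v) m0 with hlt | heq | hgt
  · refine Or.inl ⟨0, fun i hi => absurd hi (by omega), ?_⟩
    change (H.col (e 0)).1 < m0
    rw [hlab 0, he0]; exact hlt
  · by_cases hB : ∃ n, LD H μ ell n v
    · obtain ⟨N, hN⟩ := hB
      obtain ⟨n, hn1, hn2⟩ := hreach N v hN e he0 he1 hconf'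
      have hm := hmem e he1 (by rw [he0]; exact heq)
      refine Or.inl ⟨n + 1, fun i hi => ?_, ?_⟩
      · change (H.col (e i)).1 = Game.mem m0 μ (fun i => (H.col (e i)).2) i
        rw [hm i fun j hj => hn1 j (by omega), hlab i]
      · change (H.col (e (n + 1))).1 <
          μ (Game.mem m0 μ (fun i => (H.col (e i)).2) n) (H.col (e n)).2
        rw [hm n hn1, hlab (n + 1), he1 n, ← hn2.1]
        exact hn2.2
    · -- the winning path consists of consistent edges
      have hpm := hmem p hp1 (by rw [hp0]; exact heq)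
      have hstep : ∀ n, (∀ i < n, LCons H μ ell (p i)) → (¬ ∃ m, LD H μ ell m (H.src (p n))) → LCons H μ ell (p n) := by
        intro n hn hnD
        have hok : ∀ i < n, (H.col (p i)).1 = Game.mem m0 μ (fun i => (H.col (p i)).2) i := by
          intro i hi
          rw [hpm i fun j hj => hn j (by omega)]
          exact (hn i hi).1
        have hlab1 : (H.col (p n)).1 = ell (H.src (p n)) := by
          by_contra hne
          refine Wl_bad hpW' (n := n) hok ?_
          rw [hpm n hn]
          exact lt_of_le_of_ne (hle _) (Ne.symm hne)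
        refine ⟨hlab1, ?_⟩
        rcases lt_trichotomy (ell (H.tgt (p n))) (μ (H.col (p n)).1 (H.col (p n)).2) with
          hl | he | hg
        · exact absurd ⟨0, p n, rfl, hlab1, hl⟩ hnD
        · exact he
        · exfalso
          refine Wl_bad hpW' (n := n + 1) ?_ ?_
          · intro i hi
            rcases Nat.lt_or_ge i n with h1 | h1
            · exact hok i h1
            · have : i = n := by omega
              subst this
              change (H.col (p i)).1 = Game.mem m0 μ (fun i => (H.col (p i)).2) i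
              rw [hpm i hn, hlab1]
          · change μ (Game.mem m0 μ (fun i => (H.col (p i)).2) n) (H.col (p n)).2 <
              (H.col (p (n + 1))).1
            rw [hpm n hn, ← hlab1]
            refine lt_of_lt_of_le hg ?_
            rw [← hp1 n]
            exact hle _
      have hpc : ∀ n, (∀ i < n, LCons H μ ell (p i)) ∧ ¬ ∃ m, LD H μ ell m (H.src (p n)) := by
        intro n
        induction n with
        | zero => exact ⟨fun i hi => absurd hi (by omega), by rw [hp0]; exact hB⟩
        | succ n ih =>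
          have h1 := hstep n ih.1 ih.2
          refine ⟨fun i hi => ?_, fun ⟨m, hm⟩ => ih.2 ⟨m + 1, p n, rfl, h1, ?_⟩⟩
          · rcases Nat.lt_or_ge i n with h2 | h2
            · exact ih.1 i h2
            · have : i = n := by omega
              rw [this]; exact h1
          · rw [← hp1 n]; exact hm
      have hpcons : ∀ n, LCons H μ ell (p n) := fun n => hstep n (hpc n).1 (hpc n).2
      have hvL : v ∈ LL H μ ell := ⟨hB, p, hp0, hp1, hpcons⟩
      have hpW2 : (fun n => (H.col (p n)).2) ∈ W := by
        refine Wl_ok hpW' fun n => ?_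
        rw [hpm n (hpc n).1]
        exact (hpcons n).1
      -- the play follows `cK`
      have heL : ∀ n, H.src (e n) ∈ LL H μ ell := by
        intro n
        induction n with
        | zero => rw [he0]; exact hvL
        | succ n ih =>
          rw [he1 n, hconf' n, hσ4 _ ih.1 ih]
          exact (hK1 _ ih _).2.2
      have hec : ∀ n, e n = cK (H.src (e n)) (ell (H.src (e n))) := fun n => by
        conv_lhs => rw [hconf' n]
        exact hσ4 _ (heL n).1 (heL n)
      have hecons : ∀ n, LCons H μ ell (e n) := fun n => by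
        rw [hec n]; exact (hK1 _ (heL n) _).2.1
      refine Or.inr ⟨fun n => ?_, ?_⟩
      · change (H.col (e n)).1 = Game.mem m0 μ (fun i => (H.col (e i)).2) n
        rw [hmem e he1 (by rw [he0]; exact heq) n fun i _ => hecons i, hlab n]
      · exact hK2 v hvL heq ⟨p, hp0, hp1, hpcons, hpW2⟩ e he0 he1 hec
  · exfalso
    refine Wl_bad hpW' (n := 0) (fun i hi => absurd hi (by omega)) ?_
    change m0 < (H.col (p 0)).1
    refine lt_of_lt_of_le hgt ?_
    rw [← hp0]
    exact hle _

/-- Over one-player games one structure can be chosen for all games. -/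
theorem suff_of_bound [Nonempty Γ] {W : Set (ℕ → Γ)} (h : Bound (fun G => G.OnePlayer) W k) :
    ∃ (m0 : Fin k) (μ : Fin k → Γ → Fin k), Suff (fun G => G.OnePlayer) W m0 μ := by
  classical
  by_contra hno
  push Not at hno
  have hno' : ∀ s : Fin k × (Fin k → Γ → Fin k), ∃ G : Game Γ, G.OnePlayer ∧
      ∀ c : G.V → Fin k → G.E, ¬ G.Optimal W s.1 s.2 c := by
    intro s
    have := hno s.1 s.2
    unfold Suff at this
    push Not at this
    exact this
  choose G hG1 hG2 using hno'
  -- a structure exists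
  obtain ⟨a⟩ := ‹Nonempty Γ›
  let G0 : Game Γ :=
    { V := Unit, E := Unit, src := fun _ => (), tgt := fun _ => (), col := fun _ => a,
      eve := Set.univ, init := (), out := fun _ => ⟨(), rfl⟩ }
  obtain ⟨m00, μ00, -, -⟩ := h G0 (fun _ => trivial)
  let s0 : Fin k × (Fin k → Γ → Fin k) := (m00, μ00)
  -- the disjoint union
  let U : Game Γ :=
    { V := Σ s, (G s).V
      E := Σ s, (G s).E
      src := fun e => ⟨e.1, (G e.1).src e.2⟩
      tgt := fun e => ⟨e.1, (G e.1).tgt e.2⟩
      col := fun e => (G e.1).col e.2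
      eve := Set.univ
      init := ⟨s0, (G s0).init⟩
      out := fun v => by
        obtain ⟨e, he⟩ := (G v.1).out v.2
        exact ⟨⟨v.1, e⟩, by simp only [he]⟩ }
  have hU : U.OnePlayer := fun _ => trivial
  obtain ⟨m0, μ, c, hc, hwin⟩ := h U hU
  have key : ∀ (v : (G (m0, μ)).V) (m : Fin k), ∃ f : (G (m0, μ)).E,
      (G (m0, μ)).src f = v ∧ c ⟨(m0, μ), v⟩ m = ⟨(m0, μ), f⟩ := by
    intro v m
    have h1 : U.src (c ⟨(m0, μ), v⟩ m) = ⟨(m0, μ), v⟩ := hc _ trivial m
    generalize c ⟨(m0, μ), v⟩ m = x at h1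
    obtain ⟨s, f⟩ := x
    have h2 : (⟨s, (G s).src f⟩ : Σ s, (G s).V) = ⟨(m0, μ), v⟩ := h1
    have h3 : s = (m0, μ) := congrArg Sigma.fst h2
    subst h3
    have h4 : (G (m0, μ)).src f = v := by
      have := Sigma.mk.inj h2
      exact eq_of_heq this.2
    exact ⟨f, h4, rfl⟩
  choose cs hcs1 hcs2 using key
  refine hG2 (m0, μ) cs ⟨fun v _ m => hcs1 v m, ?_⟩
  intro v hv e he hconf
  obtain ⟨p, hp, hpW⟩ := wins_play ((G (m0, μ)).startAt v) (hG1 _) hv
  have hpU : (U.startAt ⟨(m0, μ), v⟩).IsPlay fun n => ⟨(m0, μ), p n⟩ :=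
    ⟨congrArg (Sigma.mk (m0, μ)) hp.1, fun n => congrArg (Sigma.mk (m0, μ)) (hp.2 n)⟩
  have hw : (U.startAt ⟨(m0, μ), v⟩).EveWins W := onePlayer_wins (U.startAt ⟨(m0, μ), v⟩) hU hpU hpW
  have heU : (U.startAt ⟨(m0, μ), v⟩).IsPlay fun n => ⟨(m0, μ), e n⟩ :=
    ⟨congrArg (Sigma.mk (m0, μ)) he.1, fun n => congrArg (Sigma.mk (m0, μ)) (he.2 n)⟩
  refine hwin ⟨(m0, μ), v⟩ hw (fun n => ⟨(m0, μ), e n⟩) heU fun n _ => ?_
  have h1 : e n = cs ((G (m0, μ)).src (e n))
      (Game.mem m0 μ (fun i => (G (m0, μ)).col (e i)) n) := hconf n (hG1 _ _)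
  have h2 := hcs2 ((G (m0, μ)).src (e n)) (Game.mem m0 μ (fun i => (G (m0, μ)).col (e i)) n)
  rw [← h1] at h2
  exact h2.symm

/-- From the case `k = 1`: every structure that suffices over one-player games suffices over all
games. -/
theorem suff_all (hCO : CaseOne) [Finite Γ] {W : Set (ℕ → Γ)} (hW : OmegaRegular W)
    (m0 : Fin k) (μ : Fin k → Γ → Fin k) (h : Suff (fun G => G.OnePlayer) W m0 μ) :
    Suff (fun _ => True) W m0 μ :=
  suff_of_positional (hCO (Fin k × Γ) (Wl W m0 μ) inferInstance (omegaRegular_Wl hW m0 μ)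
    (positional_of_suff h))

theorem bound_iff (hCO : CaseOne) [Finite Γ] {W : Set (ℕ → Γ)} (hW : OmegaRegular W) (k : ℕ) :
    Bound (fun G => G.OnePlayer) W k ↔ Bound (fun _ => True) W k := by
  constructor
  · intro h G _
    obtain ⟨f, -⟩ := G.out G.init
    have : Nonempty Γ := ⟨G.col f⟩
    obtain ⟨m0, μ, h1⟩ := suff_of_bound h
    exact ⟨m0, μ, suff_all hCO hW m0 μ h1 G trivial⟩
  · intro h G _
    exact h G trivial

end Uniform

/-! ### One initial vertex: the case `k = 1` -/

/-- The fixed memory structure `(Fin k, m0, μ)` suffices for the objective `W` over the class `C`: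
in every game of `C` that Eve wins, she wins with a choice function based on this structure. -/
def Suffices {Γ : Type} (C : Game Γ → Prop) (W : Set (ℕ → Γ)) {k : ℕ} (m0 : Fin k)
    (μ : Fin k → Γ → Fin k) : Prop :=
  ∀ G : Game Γ, C G → G.EveWins W →
    ∃ c : G.V → Fin k → G.E, (∀ v ∈ G.eve, ∀ m, G.src (c v m) = v) ∧
      ∀ e, G.IsPlay e →
        (∀ n, G.src (e n) ∈ G.eve →
          e n = c (G.src (e n)) (Game.mem m0 μ (fun i => G.col (e i)) n)) →
        (fun n => G.col (e n)) ∈ W

section Fixed

variable {Γ : Type} {k : ℕ}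

/-- The words over `Fin k × Γ` whose first components are not the states of the structure, or
whose second components form a word of `W`. -/
def Wp (W : Set (ℕ → Γ)) (m0 : Fin k) (μ : Fin k → Γ → Fin k) : Set (ℕ → Fin k × Γ) :=
  {w | (∃ n, (w n).1 ≠ Game.mem m0 μ (fun i => (w i).2) n) ∨ (fun i => (w i).2) ∈ W}

/-- The automaton for `Wp`. -/
def autP (A : DPA Γ) (m0 : Fin k) (μ : Fin k → Γ → Fin k) : DPA (Fin k × Γ) where
  Q := Option (Fin k × A.Q)
  fin := by have := A.fin; infer_instance
  q0 := some (m0, A.q0)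
  step q a := q.bind fun p => if a.1 = p.1 then some (μ p.1 a.2, A.step p.2 a.2) else none
  pr q := q.elim 0 fun p => A.pr p.2

theorem autP_run_succ (A : DPA Γ) (m0 : Fin k) (μ : Fin k → Γ → Fin k) (w : ℕ → Fin k × Γ)
    (n : ℕ) : (autP A m0 μ).run w (n + 1) = Option.bind ((autP A m0 μ).run w n)
      fun p => if (w n).1 = p.1 then some (μ p.1 (w n).2, A.step p.2 (w n).2) else none := rfl

theorem autP_run_ok (A : DPA Γ) (m0 : Fin k) (μ : Fin k → Γ → Fin k) (w : ℕ → Fin k × Γ) (N : ℕ)
    (h : ∀ i < N, (w i).1 = Game.mem m0 μ (fun i => (w i).2) i) :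
    (autP A m0 μ).run w N = some (Game.mem m0 μ (fun i => (w i).2) N,
      A.run (fun i => (w i).2) N) := by
  induction N with
  | zero => rfl
  | succ N ih =>
    have h1 := ih fun i hi => h i (by omega)
    have h2 := h N (by omega)
    rw [autP_run_succ, h1]
    simp only [Option.bind_some, h2, if_true, Game.mem, DPA.run]
    all_goals rfl

theorem autP_run_bad (A : DPA Γ) (m0 : Fin k) (μ : Fin k → Γ → Fin k) (w : ℕ → Fin k × Γ)
    (h : ∃ n, (w n).1 ≠ Game.mem m0 μ (fun i => (w i).2) n) :
    ∃ N, ∀ n, N ≤ n → (autP A m0 μ).run w n = none := by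
  classical
  let N := Nat.find h
  have h1 : (w N).1 ≠ Game.mem m0 μ (fun i => (w i).2) N := Nat.find_spec h
  have h2 : ∀ i < N, (w i).1 = Game.mem m0 μ (fun i => (w i).2) i := fun i hi => by
    have := Nat.find_min h hi
    simpa using this
  have h3 := autP_run_ok A m0 μ w N h2
  refine ⟨N + 1, fun n hn => ?_⟩
  induction n, hn using Nat.le_induction with
  | base =>
    rw [autP_run_succ, h3]
    simp only [Option.bind_some, h1, if_false]
    all_goals rfl
  | succ n hn ih => rw [autP_run_succ, ih]; rfl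

theorem omegaRegular_Wp {W : Set (ℕ → Γ)} (hW : OmegaRegular W) (m0 : Fin k)
    (μ : Fin k → Γ → Fin k) : OmegaRegular (Wp W m0 μ) := by
  obtain ⟨A, hA⟩ := hW
  refine ⟨autP A m0 μ, fun w => ?_⟩
  by_cases hb : ∃ n, (w n).1 ≠ Game.mem m0 μ (fun i => (w i).2) n
  · obtain ⟨N, hN⟩ := autP_run_bad A m0 μ w hb
    have hpr : ∀ n, N ≤ n → (autP A m0 μ).pr ((autP A m0 μ).run w n) = 0 := fun n hn => by
      rw [hN n hn]; rfl
    constructor
    · intro _
      refine ⟨0, by simp, ?_, ?_⟩
      · exact (eventually_atTop.2 ⟨N, hpr⟩).frequently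
      · intro q hq hf
        obtain ⟨n, hn, h⟩ := (frequently_atTop.1 hf) N
        rw [hpr n hn] at h
        omega
    · intro _
      exact Or.inl hb
  · push Not at hb
    have hrun : ∀ n, (autP A m0 μ).pr ((autP A m0 μ).run w n) =
        A.pr (A.run (fun i => (w i).2) n) := fun n => by
      rw [autP_run_ok A m0 μ w n fun i _ => hb i]; rfl
    have h1 : w ∈ Wp W m0 μ ↔ (fun i => (w i).2) ∈ W := by
      constructor
      · rintro (⟨n, hn⟩ | h)
        · exact absurd (hb n) hn
        · exact h
      · exact Or.inr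
    rw [h1, hA]
    unfold DPA.Accepts
    simp only [hrun]

/-- The game with the first components of the colours forgotten. -/
def forget (H : Game (Fin k × Γ)) : Game Γ where
  V := H.V
  E := H.E
  src := H.src
  tgt := H.tgt
  col e := (H.col e).2
  eve := H.eve
  init := H.init
  out := H.out

/-- A play can be redirected at any step. -/
theorem redirect (H : Game (Fin k × Γ)) {p : ℕ → H.E} (hp : H.IsPlay p) (n : ℕ) (f : H.E)
    (hf : H.src f = H.src (p n)) :
    ∃ q, H.IsPlay q ∧ (∀ i < n, q i = p i) ∧ q n = f := by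
  classical
  choose nx hnx using H.out
  let wk : ℕ → H.E := fun t => Nat.rec f (fun _ e => nx (H.tgt e)) t
  have hwk : ∀ t, H.src (wk (t + 1)) = H.tgt (wk t) := fun t => hnx _
  refine ⟨fun i => if i < n then p i else wk (i - n), ⟨?_, ?_⟩, ?_, ?_⟩
  · by_cases h : 0 < n
    · simp only [h, if_true]; exact hp.1
    · have : n = 0 := by omega
      subst this
      simp only [lt_irrefl, if_false]
      change H.src f = _
      rw [hf]; exact hp.1
  · intro i
    by_cases h1 : i + 1 < n
    · simp only [h1, if_true, show i < n by omega]; exact hp.2 i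
    · by_cases h2 : i < n
      · have h3 : n = i + 1 := by omega
        subst h3
        simp only [lt_irrefl, if_false, Nat.lt_succ_self, if_true, Nat.sub_self]
        change H.src f = _
        rw [hf]; exact hp.2 i
      · simp only [h1, h2, if_false]
        have : i + 1 - n = (i - n) + 1 := by omega
        rw [this]; exact hwk _
  · intro i hi
    simp [hi]
  · simp only [lt_irrefl, if_false, Nat.sub_self]
    rfl

/-- The state expected before step `n` of a play. -/
abbrev expd (H : Game (Fin k × Γ)) (m0 : Fin k) (μ : Fin k → Γ → Fin k) (p : ℕ → H.E) (n : ℕ) :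
    Fin k := Game.mem m0 μ (fun i => (H.col (p i)).2) n

/-- If the structure suffices for `W` over one-player games, then `Wp` is positional over
one-player games. -/
theorem positional_of_suffices {W : Set (ℕ → Γ)} {m0 : Fin k} {μ : Fin k → Γ → Fin k}
    (h : Suffices (fun G => G.OnePlayer) W m0 μ) (H : Game (Fin k × Γ)) (hH : H.OnePlayer)
    (hw : H.EveWins (Wp W m0 μ)) : H.ChromWins (Wp W m0 μ) 1 := by
  classical
  by_cases hbad : ∃ n, ∃ p, H.IsPlay p ∧ (H.col (p n)).1 ≠ expd H m0 μ p n
  · -- an inconsistent play exists: follow a shortest one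
    let n := Nat.find hbad
    obtain ⟨p, hp, hpn⟩ : ∃ p, H.IsPlay p ∧ (H.col (p n)).1 ≠ expd H m0 μ p n :=
      Nat.find_spec hbad
    have hmin : ∀ i < n, ∀ q, H.IsPlay q → (H.col (q i)).1 = expd H m0 μ q i := by
      intro i hi q hq
      by_contra hne
      exact Nat.find_min hbad hi ⟨q, hq, hne⟩
    have hshort : ∀ i j, i < j → j < n → H.src (p i) ≠ H.src (p j) := by
      intro i j hij hjn heq
      let q : ℕ → H.E := fun t => if t < i then p t else p (t + (j - i))
      have hq : H.IsPlay q := by
        refine ⟨?_, fun t => ?_⟩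
        · by_cases h0 : 0 < i
          · simp only [q, h0, if_true]; exact hp.1
          · have hi0 : i = 0 := by omega
            subst hi0
            simp only [q, lt_irrefl, if_false, Nat.zero_add, Nat.sub_zero]
            rw [← heq]; exact hp.1
        · by_cases h1 : t + 1 < i
          · simp only [q, h1, if_true, show t < i by omega]; exact hp.2 t
          · by_cases h2 : t < i
            · have h3 : i = t + 1 := by omega
              simp only [q, h1, if_false, h2, if_true]
              have h4 : t + 1 + (j - i) = j := by omega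
              rw [h4, ← heq, h3]; exact hp.2 t
            · simp only [q, h1, h2, if_false]
              have h4 : t + 1 + (j - i) = (t + (j - i)) + 1 := by omega
              rw [h4]; exact hp.2 _
      have hlast : ∀ t, i ≤ t → q t = p (t + (j - i)) := fun t ht => by
        simp only [q, show ¬ t < i by omega, if_false]
      -- the index of the last edge
      obtain ⟨s, hs⟩ : ∃ s, n = s + 1 + (j - i) ∧ i ≤ s := ⟨n - 1 - (j - i), by omega, by omega⟩
      have e1 : (H.col (q (s + 1))).1 = expd H m0 μ q (s + 1) := hmin _ (by omega) q hq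
      have e2 : (H.col (q s)).1 = expd H m0 μ q s := hmin _ (by omega) q hq
      have e3 : q (s + 1) = p n := by rw [hlast _ (by omega)]; congr 1; omega
      have e4 : q s = p (s + (j - i)) := hlast _ hs.2
      have e5 : (H.col (p (s + (j - i)))).1 = expd H m0 μ p (s + (j - i)) :=
        hmin _ (by omega) p hp
      have e6 : expd H m0 μ q (s + 1) = μ (expd H m0 μ q s) (H.col (q s)).2 := rfl
      have e7 : expd H m0 μ p (s + (j - i) + 1) =
        μ (expd H m0 μ p (s + (j - i))) (H.col (p (s + (j - i)))).2 := rfl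
      have e8 : n = s + (j - i) + 1 := by omega
      apply hpn
      rw [← e3, e1, e6, ← e2, e4, e5, ← e7, ← e8]
    -- the strategy
    choose nx hnx using H.out
    let σ : H.V → H.E := fun v =>
      if hv : ∃ i, i ≤ n ∧ H.src (p i) = v then p (Nat.find hv) else nx v
    have hσ : ∀ v, H.src (σ v) = v := by
      intro v
      by_cases hv : ∃ i, i ≤ n ∧ H.src (p i) = v
      · simp only [σ, hv, dif_pos]; exact (Nat.find_spec hv).2
      · simp only [σ, hv, dif_neg, not_false_eq_true]; exact hnx v
    have hσp : ∀ i, i < n → σ (H.src (p i)) = p i := by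
      intro i hi
      have hv : ∃ j, j ≤ n ∧ H.src (p j) = H.src (p i) := ⟨i, by omega, rfl⟩
      have h1 : Nat.find hv ≤ i := Nat.find_min' hv ⟨by omega, rfl⟩
      have h2 := (Nat.find_spec hv).2
      have h3 : Nat.find hv = i := by
        rcases Nat.lt_or_ge (Nat.find hv) i with hlt | hge
        · exact absurd h2 (hshort _ _ hlt hi)
        · omega
      simp only [σ, dif_pos hv, h3]
    have hσn : (H.col (σ (H.src (p n)))).1 ≠ expd H m0 μ p n := by
      have hv : ∃ j, j ≤ n ∧ H.src (p j) = H.src (p n) := ⟨n, le_rfl, rfl⟩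
      have h1 : Nat.find hv ≤ n := (Nat.find_spec hv).1
      have h2 := (Nat.find_spec hv).2
      simp only [σ, dif_pos hv]
      rcases Nat.lt_or_ge (Nat.find hv) n with hlt | hge
      · obtain ⟨q, hq, hq1, hq2⟩ := redirect H hp (Nat.find hv) (p n) h2.symm
        have h3 := hmin _ hlt q hq
        have h4 := hmin _ hlt p hp
        have h5 : expd H m0 μ q (Nat.find hv) = expd H m0 μ p (Nat.find hv) :=
          mem_congr fun i hi => by rw [hq1 i hi]
        rw [hq2, h5, ← h4] at h3
        rw [← h3]
        exact hpn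
      · have h3 : Nat.find hv = n := by omega
        rw [h3]; exact hpn
    refine ⟨0, fun _ _ => 0, fun v _ => σ v, fun v _ _ => hσ v, ?_⟩
    intro e he hconf
    have hconf' : ∀ t, e t = σ (H.src (e t)) := fun t => hconf t (hH _)
    have hsame : ∀ t, t ≤ n → H.src (e t) = H.src (p t) ∧ ∀ i < t, e i = p i := by
      intro t
      induction t with
      | zero => intro _; exact ⟨by rw [he.1, hp.1], fun i hi => absurd hi (by omega)⟩
      | succ t ih =>
        intro ht
        obtain ⟨h1, h2⟩ := ih (by omega)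
        have h3 : e t = p t := by rw [hconf' t, h1, hσp t (by omega)]
        refine ⟨by rw [he.2 t, hp.2 t, h3], fun i hi => ?_⟩
        rcases Nat.lt_or_ge i t with hlt | hge
        · exact h2 i hlt
        · have : i = t := by omega
          rw [this, h3]
    obtain ⟨h1, h2⟩ := hsame n le_rfl
    refine Or.inl ⟨n, ?_⟩
    have h3 : Game.mem m0 μ (fun i => (H.col (e i)).2) n = expd H m0 μ p n :=
      mem_congr fun i hi => by rw [h2 i hi]
    change (H.col (e n)).1 ≠ Game.mem m0 μ (fun i => (H.col (e i)).2) n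
    rw [h3, hconf' n, h1]
    exact hσn
  · -- all plays are consistent: the state is a function of the vertex
    push Not at hbad
    have hcons : ∀ (p : ℕ → H.E), H.IsPlay p → ∀ n, (H.col (p n)).1 = expd H m0 μ p n :=
      fun p hp n => hbad n p hp
    choose nx hnx using H.out
    have hlab : ∀ (p : ℕ → H.E), H.IsPlay p → ∀ n,
        (H.col (nx (H.src (p n)))).1 = expd H m0 μ p n := by
      intro p hp n
      obtain ⟨q, hq, hq1, hq2⟩ := redirect H hp n (nx (H.src (p n))) (hnx _)
      have h3 := hcons q hq n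
      rw [hq2] at h3
      rw [h3]
      exact mem_congr fun i hi => by rw [hq1 i hi]
    have hG : (forget H).EveWins W := by
      obtain ⟨σ, hσ, hwin⟩ := hw
      have hcur : ∀ l : List H.E, (forget H).cur l = H.cur l := by
        intro l
        cases l <;> rfl
      have hhist : ∀ (e : ℕ → H.E) n, (forget H).hist e n = H.hist e n := by
        intro e n
        induction n with
        | zero => rfl
        | succ n ih => exact congrArg (List.cons (e n)) ih
      refine ⟨σ, fun l hl => ?_, fun e he hconf => ?_⟩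
      · have h1 : H.cur l ∈ H.eve := Eq.mp (congrArg (· ∈ H.eve) (hcur l)) hl
        exact (hσ l h1).trans (hcur l).symm
      · have he' : H.IsPlay e := he
        rcases hwin e he' (fun n hn => (hconf n hn).trans (congrArg σ (hhist e n))) with
          ⟨n, hn⟩ | h1
        · exact absurd (hcons e he' n) hn
        · exact h1
    obtain ⟨c, hc, hwin⟩ := h (forget H) hH hG
    refine ⟨0, fun _ _ => 0, fun v _ => c v (H.col (nx v)).1, fun v hv _ => hc v hv _, ?_⟩
    intro e he hconf
    refine Or.inr (hwin e he fun n hn => ?_)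
    have h1 : e n = c (H.src (e n)) (H.col (nx (H.src (e n)))).1 := hconf n hn
    rw [hlab e he n] at h1
    exact h1

end Fixed

/-- The three-state structure of the example. -/
def exμ : Fin 3 → Bool → Fin 3 := fun m s => if m = 0 then (if s then 2 else 1) else m

/-- Adam moves first and gives the structure the state `1` or `2`; Eve answers. -/
def exGame : Game (Fin 3 × Bool) where
  V := Bool
  E := Bool × Bool
  src e := e.1
  tgt _ := true
  col e := if e.1 then (if e.2 then 2 else 1, false) else (0, e.2)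
  eve := {true}
  init := false
  out v := ⟨(v, false), rfl⟩

theorem exGame_wins : exGame.EveWins (Wp (∅ : Set (ℕ → Bool)) 0 exμ) := by
  refine ⟨fun l => match l with
    | [] => (true, true)
    | a :: _ => (true, if a.1 then true else !a.2), ?_, ?_⟩
  · intro l hl
    cases l with
    | nil => exact absurd (show (false : Bool) = true from hl) (by decide)
    | cons a l => rfl
  · intro e he hconf
    have h0 : (e 0).1 = false := he.1
    have h1 : exGame.src (e 1) = true := he.2 0
    have h2 : e 1 = (true, if (e 0).1 then true else !(e 0).2) := hconf 1 h1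
    refine Or.inl ⟨1, ?_⟩
    change (exGame.col (e 1)).1 ≠ exμ 0 (exGame.col (e 0)).2
    rw [h2]
    rcases hx : e 0 with ⟨a, b⟩
    rw [hx] at h0
    simp only at h0
    subst h0
    cases b <;> decide

theorem exGame_not : ¬ exGame.ChromWins (Wp (∅ : Set (ℕ → Bool)) 0 exμ) 1 := by
  rintro ⟨a0, ν, c, hc, hwin⟩
  have h1 : (c true 0).1 = true := hc true rfl 0
  obtain ⟨y, hy⟩ : ∃ y, c true 0 = (true, y) := ⟨(c true 0).2, Prod.ext h1 rfl⟩
  let e : ℕ → exGame.E := fun n => match n with
    | 0 => (false, y)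
    | _ + 1 => (true, y)
  have hplay : exGame.IsPlay e := ⟨rfl, fun n => rfl⟩
  have hmem : ∀ n, Game.mem (0 : Fin 3) exμ (fun i => (exGame.col (e i)).2) (n + 1) =
      if y then 2 else 1 := by
    intro n
    induction n with
    | zero => cases y <;> rfl
    | succ n ih =>
      change exμ (Game.mem (0 : Fin 3) exμ (fun i => (exGame.col (e i)).2) (n + 1)) _ = _
      rw [ih]
      cases y <;> rfl
  have hconf : ∀ n, exGame.src (e n) ∈ exGame.eve →
      e n = c (exGame.src (e n)) (Game.mem a0 ν (fun i => exGame.col (e i)) n) := by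
    intro n hn
    cases n with
    | zero => exact absurd (show (false : Bool) = true from hn) (by decide)
    | succ n =>
      rw [Subsingleton.elim (Game.mem a0 ν _ (n + 1)) 0]
      exact hy.symm
  rcases hwin e hplay hconf with ⟨n, hn⟩ | h
  · cases n with
    | zero => exact hn rfl
    | succ n =>
      apply hn
      rw [hmem n]
      cases y <;> rfl
  · exact h

/-- With a single initial vertex the case `k = 1` fails. -/
theorem literal_one : ∃ U : Set (ℕ → Fin 3 × Bool), OmegaRegular U ∧
    (∀ G : Game (Fin 3 × Bool), G.OnePlayer → G.EveWins U → G.ChromWins U 1) ∧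
    ∃ G : Game (Fin 3 × Bool), G.IsFinite ∧ G.EveWins U ∧ ¬ G.ChromWins U 1 := by
  refine ⟨Wp ∅ 0 exμ, omegaRegular_Wp ?_ 0 exμ, ?_, exGame,
    ⟨inferInstanceAs (Finite Bool), inferInstanceAs (Finite (Bool × Bool))⟩,
    exGame_wins, exGame_not⟩
  · refine ⟨⟨Unit, inferInstance, (), fun _ _ => (), fun _ => 1⟩, fun w => ?_⟩
    constructor
    · intro h; exact absurd h id
    · rintro ⟨p, hp, hf, -⟩
      obtain ⟨n, h⟩ := hf.exists
      have h' : 1 = p := h
      rw [← h'] at hp
      exact absurd hp (by decide)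
  · intro G hG hw
    refine positional_of_suffices ?_ G hG hw
    intro G' hG' hw'
    obtain ⟨e, -, h⟩ := wins_play G' hG' hw'
    exact absurd h id

/-- (1) Strategies that must win from every vertex from which Eve can win: if the case `k = 1`
holds, then for every omega-regular objective every structure that suffices over one-player games
suffices over all games, and the chromatic memories over one-player games and over all games
agree. (2) One initial vertex only: `W n` has chromatic memory `2` over one-player games and `n`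
over all games. (3) One initial vertex only: the case `k = 1` fails. -/
theorem result :
    (CaseOne → ∀ (Γ : Type) (U : Set (ℕ → Γ)), Finite Γ → OmegaRegular U →
      (∀ (k : ℕ) (m0 : Fin k) (μ : Fin k → Γ → Fin k),
        Suff (fun G => G.OnePlayer) U m0 μ → Suff (fun _ => True) U m0 μ) ∧
      (∀ k : ℕ, Bound (fun G => G.OnePlayer) U k ↔ Bound (fun _ => True) U k) ∧
      ∀ k : ℕ, UMem (fun G => G.OnePlayer) U k ↔ UMem (fun _ => True) U k) ∧
    (∀ n : ℕ, 2 ≤ n → OmegaRegular (W n) ∧
      ChromMem (fun G => G.OnePlayer) (W n) 2 ∧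
      ChromMem (fun G => G.OnePlayer ∧ G.IsFinite) (W n) 2 ∧
      ChromMem (fun _ => True) (W n) n ∧
      ChromMem (fun G => G.IsFinite) (W n) n) ∧
    ∃ U : Set (ℕ → Fin 3 × Bool), OmegaRegular U ∧
      (∀ G : Game (Fin 3 × Bool), G.OnePlayer → G.EveWins U → G.ChromWins U 1) ∧
      ∃ G : Game (Fin 3 × Bool), G.IsFinite ∧ G.EveWins U ∧ ¬ G.ChromWins U 1 := by
  refine ⟨?_, literal_gap.2, literal_one⟩
  intro hCO Γ U hΓ hU
  refine ⟨fun k m0 μ h => suff_all hCO hU m0 μ h, fun k => bound_iff hCO hU k, fun k => ?_⟩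
  have h2 : {k : ℕ | Bound (fun G => G.OnePlayer) U k} = {k : ℕ | Bound (fun _ => True) U k} :=
    Set.ext fun k => bound_iff hCO hU k
  unfold UMem
  rw [h2]

end Pool.Agent.Results.MP_369bda_lc.StructureLift
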